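import Mathlib
import Pool.Agent.Lib_helper68.KTwoD

/-!
Poisson summation with polynomial weights for profiles vanishing to order `k` at the nodes `√(k n)`
(MP_a65497_an).
-/

set_option autoImplicit false

open MeasureTheory Set Filter Topology
open scoped FourierTransform Real SchwartzMap

namespace Pool.Agent.KT97

open Pool.Agent.H68

/-- Iterated derivative as a Schwartz function. -/
noncomputable def dS (F : 𝓢(ℝ, ℂ)) : ℕ → 𝓢(ℝ, ℂ)
  | 0 => F
  | i + 1 => SchwartzMap.derivCLM ℂ ℂ (dS F i)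

lemma dS_coe (F : 𝓢(ℝ, ℂ)) (i : ℕ) : (dS F i : ℝ → ℂ) = iteratedDeriv i F := by
  induction i with
  | zero => simp [dS]
  | succ i ih =>
    rw [iteratedDeriv_succ, ← ih]
    rfl

lemma dS_succ (F : 𝓢(ℝ, ℂ)) (i : ℕ) : (dS F (i + 1) : ℝ → ℂ) = deriv (dS F i) := rfl

/-- Combinations of `F⁽ⁱ⁾(√s) (√s)^m`, `i ≤ r`, `m ≥ 2 j + 1`. -/
inductive Good (F : 𝓢(ℝ, ℂ)) : ℕ → ℕ → (ℝ → ℂ) → Prop
  | base {j r : ℕ} (i m : ℕ) (hi : i ≤ r) (hm : 2 * j + 1 ≤ m) : Good F j r (sq (dS F i) m)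
  | add {j r : ℕ} {G H : ℝ → ℂ} : Good F j r G → Good F j r H → Good F j r (fun s => G s + H s)
  | smul {j r : ℕ} {G : ℝ → ℂ} (c : ℂ) : Good F j r G → Good F j r (fun s => c * G s)

lemma Good.mono {F : 𝓢(ℝ, ℂ)} {j r : ℕ} {G : ℝ → ℂ} (h : Good F j r G) {j' r' : ℕ}
    (hj : j' ≤ j) (hr : r ≤ r') : Good F j' r' G := by
  induction h with
  | base i m hi hm => exact Good.base i m (by omega) (by omega)
  | add _ _ h1 h2 => exact Good.add h1 h2
  | smul c _ h1 => exact Good.smul c h1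

lemma good_deriv {F : 𝓢(ℝ, ℂ)} {j' r : ℕ} {G : ℝ → ℂ} (h : Good F j' r G) :
    ∀ j, j' = j + 1 → ∃ G' : ℝ → ℂ, Good F j (r + 1) G' ∧ ∀ s, HasDerivAt G (G' s) s := by
  induction h with
  | base i m hi hm =>
    intro j hj
    subst hj
    obtain ⟨n, rfl⟩ : ∃ n, m = n + 2 := ⟨m - 2, by omega⟩
    refine ⟨fun s => (1 / 2 : ℂ) * sq (dS F (i + 1)) (n + 1) s +
      ((n + 2 : ℕ) : ℂ) / 2 * sq (dS F i) n s, ?_, fun s => ?_⟩
    · exact Good.add (Good.smul _ (Good.base _ _ (by omega) (by omega)))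
        (Good.smul _ (Good.base _ _ (by omega) (by omega)))
    · exact sq_hasDerivAt (dS F i) n (by omega) s
  | add _ _ h1 h2 =>
    intro j hj
    obtain ⟨G', hG', dG⟩ := h1 j hj
    obtain ⟨H', hH', dH⟩ := h2 j hj
    exact ⟨_, Good.add hG' hH', fun s => (dG s).add (dH s)⟩
  | smul c _ h1 =>
    intro j hj
    obtain ⟨G', hG', dG⟩ := h1 j hj
    exact ⟨_, Good.smul c hG', fun s => (dG s).const_mul c⟩

lemma good_cont {F : 𝓢(ℝ, ℂ)} {j r : ℕ} {G : ℝ → ℂ} (h : Good F j r G) : Continuous G := by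
  induction h with
  | base i m hi hm => exact sq_continuous _ (dS F i).continuous m
  | add _ _ h1 h2 => exact h1.add h2
  | smul c _ h1 => exact continuous_const.mul h1

lemma good_decay {F : 𝓢(ℝ, ℂ)} {j r : ℕ} {G : ℝ → ℂ} (h : Good F j r G) :
    ∃ C : ℝ, 0 ≤ C ∧ ∀ s, ‖G s‖ ≤ C * (1 + s ^ 2)⁻¹ := by
  induction h with
  | base i m hi hm =>
    obtain ⟨C, hC⟩ := sq_decay (dS F i) m (by omega)
    refine ⟨C, ?_, hC⟩
    have := (norm_nonneg _).trans (hC 0)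
    simpa using this
  | add _ _ h1 h2 =>
    obtain ⟨C, hC0, hC⟩ := h1
    obtain ⟨D, hD0, hD⟩ := h2
    refine ⟨C + D, by positivity, fun s => ?_⟩
    calc _ ≤ _ := norm_add_le _ _
      _ ≤ C * (1 + s ^ 2)⁻¹ + D * (1 + s ^ 2)⁻¹ := add_le_add (hC s) (hD s)
      _ = _ := by ring
  | smul c _ h1 =>
    obtain ⟨C, hC0, hC⟩ := h1
    refine ⟨‖c‖ * C, by positivity, fun s => ?_⟩
    rw [norm_mul, mul_assoc]
    exact mul_le_mul_of_nonneg_left (hC s) (norm_nonneg _)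

lemma good_zero {F : 𝓢(ℝ, ℂ)} {j r : ℕ} {G : ℝ → ℂ} (h : Good F j r G) (k : ℕ) (hr : r < k)
    (hz : ∀ n : ℕ, 1 ≤ n → ∀ i < k, iteratedDeriv i F (Real.sqrt (k * n)) = 0) (n : ℤ) :
    G (k * n) = 0 := by
  induction h with
  | base i m hi hm =>
    rcases le_or_gt n 0 with hn | hn
    · apply sq_of_nonpos _ _ (by omega)
      have : (n : ℝ) ≤ 0 := by exact_mod_cast hn
      have hk : (0 : ℝ) ≤ k := Nat.cast_nonneg k
      nlinarith
    · obtain ⟨l, rfl⟩ : ∃ l : ℕ, n = l := ⟨n.toNat, by omega⟩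
      have hl : 1 ≤ l := by exact_mod_cast hn
      have := hz l hl i (by omega)
      rw [← dS_coe] at this
      unfold H68.sq
      rw [Int.cast_natCast, this, zero_mul]
  | add _ _ h1 h2 => simp only [h1, h2, add_zero]
  | smul c _ h1 => simp only [h1, mul_zero]

/-- The function whose Fourier transform is sampled. -/
noncomputable def wv (k : ℕ) (G : ℝ → ℂ) (t v : ℝ) : ℂ :=
  G (k * v) * Complex.exp (π * Complex.I * k * t * v)

lemma norm_wv (k : ℕ) (G : ℝ → ℂ) (t v : ℝ) : ‖wv k G t v‖ = ‖G (k * v)‖ := by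
  have : (π * Complex.I * k * t * v : ℂ) = ((π * k * t * v : ℝ) : ℂ) * Complex.I := by
    push_cast; ring
  rw [wv, norm_mul, this, Complex.norm_exp_ofReal_mul_I, mul_one]

lemma fourier_wv (k : ℕ) (hk : 1 ≤ k) (G : ℝ → ℂ) (t ξ : ℝ) :
    𝓕 (wv k G t) ξ = (1 / k : ℂ) * hatG G (t - 2 * ξ / k) := by
  have hk0 : (k : ℝ) ≠ 0 := by exact_mod_cast (by omega : k ≠ 0)
  have hkc : (k : ℂ) ≠ 0 := by exact_mod_cast (by omega : k ≠ 0)
  rw [Real.fourier_real_eq_integral_exp_smul]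
  unfold hatG
  have h := Measure.integral_comp_mul_left
    (fun s : ℝ => G s * Complex.exp (π * Complex.I * ((t - 2 * ξ / k : ℝ) : ℂ) * s)) (k : ℝ)
  have e : (1 / k : ℂ) * ∫ s : ℝ, G s * Complex.exp (π * Complex.I * ((t - 2 * ξ / k : ℝ) : ℂ) * s) =
      |((k : ℝ))⁻¹| • ∫ s : ℝ, G s * Complex.exp (π * Complex.I * ((t - 2 * ξ / k : ℝ) : ℂ) * s) := by
    rw [Complex.real_smul, abs_of_pos (by positivity)]
    push_cast
    ring
  rw [e, ← h]
  refine integral_congr_ae (Eventually.of_forall fun v => ?_)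
  simp only [smul_eq_mul, wv]
  rw [mul_left_comm, ← Complex.exp_add]
  congr 2
  push_cast
  field_simp
  ring

lemma inv_k_le (k : ℕ) (hk : 1 ≤ k) (v : ℝ) : (1 + ((k : ℝ) * v) ^ 2)⁻¹ ≤ (1 + v ^ 2)⁻¹ := by
  have hk' : (1 : ℝ) ≤ k := by exact_mod_cast hk
  have h : 1 + v ^ 2 ≤ 1 + ((k : ℝ) * v) ^ 2 := by
    have : v ^ 2 ≤ (k : ℝ) ^ 2 * v ^ 2 := by
      have : (1 : ℝ) ≤ (k : ℝ) ^ 2 := by nlinarith
      nlinarith [sq_nonneg v]
    nlinarith
  exact inv_anti₀ (by positivity) h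

lemma wv_bound (k : ℕ) (hk : 1 ≤ k) {G : ℝ → ℂ} {C : ℝ} (hC0 : 0 ≤ C)
    (hC : ∀ s, ‖G s‖ ≤ C * (1 + s ^ 2)⁻¹) (t v : ℝ) : ‖wv k G t v‖ ≤ C * (1 + v ^ 2)⁻¹ := by
  rw [norm_wv]
  exact (hC _).trans (mul_le_mul_of_nonneg_left (inv_k_le k hk v) hC0)

/-- One twisted derivative. -/
lemma tw_step {F : 𝓢(ℝ, ℂ)} {j r : ℕ} {G : ℝ → ℂ} (h : Good F (j + 1) r G) (k : ℕ) (hk : 1 ≤ k)
    (t : ℝ) : ∃ G₁ : ℝ → ℂ, Good F j (r + 1) G₁ ∧
      ∀ ξ : ℝ, 𝓕 (wv k G₁ t) ξ = (2 * π * Complex.I * ξ) * 𝓕 (wv k G t) ξ := by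
  obtain ⟨G', hG', dG⟩ := good_deriv h j rfl
  refine ⟨fun s => (k : ℂ) * G' s + (π * Complex.I * k * t) * G s,
    Good.add (Good.smul _ hG') (Good.smul _ (h.mono (by omega) (by omega))), fun ξ => ?_⟩
  set G₁ : ℝ → ℂ := fun s => (k : ℂ) * G' s + (π * Complex.I * k * t) * G s with hG₁
  have hg₁ : Good F j (r + 1) G₁ :=
    Good.add (Good.smul _ hG') (Good.smul _ (h.mono (by omega) (by omega)))
  have hd : ∀ v, HasDerivAt (wv k G t) (wv k G₁ t v) v := by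
    intro v
    have d1 : HasDerivAt (fun v : ℝ => G (k * v)) ((k : ℝ) • G' (k * v)) v := by
      have a : HasDerivAt (fun v : ℝ => (k : ℝ) * v) k v := by
        simpa using (hasDerivAt_id v).const_mul (k : ℝ)
      exact (dG (k * v)).scomp v a
    have d2 : HasDerivAt (fun v : ℝ => (π * Complex.I * k * t * v : ℂ)) (π * Complex.I * k * t) v := by
      have a : HasDerivAt (fun v : ℝ => (v : ℂ)) 1 v := by
        simpa using (hasDerivAt_id v).ofReal_comp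
      simpa using a.const_mul (π * Complex.I * k * t : ℂ)
    have d3 := d1.mul d2.cexp
    refine d3.congr_deriv ?_
    simp only [hG₁, wv, Complex.real_smul]
    push_cast
    ring
  have hderiv : deriv (wv k G t) = wv k G₁ t := by
    ext v; exact (hd v).deriv
  have hdiff : Differentiable ℝ (wv k G t) := fun v => (hd v).differentiableAt
  obtain ⟨C, hC0, hC⟩ := good_decay h
  obtain ⟨D, hD0, hD⟩ := good_decay hg₁
  have hc1 : Continuous (wv k G₁ t) := by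
    have := good_cont hg₁
    unfold wv; fun_prop
  have hgi : Integrable (wv k G t) :=
    integrable_of_sq_decay _ hdiff.continuous C (fun v => wv_bound k hk hC0 hC t v)
  have hfi : Integrable (wv k G₁ t) :=
    integrable_of_sq_decay _ hc1 D (fun v => wv_bound k hk hD0 hD t v)
  have := congrFun (Real.fourier_deriv hgi hdiff (by rw [hderiv]; exact hfi)) ξ
  rw [hderiv] at this
  rw [this]
  simp [smul_eq_mul]

lemma tw_iter (k : ℕ) (hk : 1 ≤ k) (t : ℝ) {F : 𝓢(ℝ, ℂ)} (i : ℕ) :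
    ∀ {j r : ℕ} {G : ℝ → ℂ}, Good F (j + i) r G → ∃ G₁ : ℝ → ℂ, Good F j (r + i) G₁ ∧
      ∀ ξ : ℝ, 𝓕 (wv k G₁ t) ξ = (2 * π * Complex.I * ξ) ^ i * 𝓕 (wv k G t) ξ := by
  induction i with
  | zero =>
    intro j r G h
    exact ⟨G, h, fun ξ => by simp⟩
  | succ i ih =>
    intro j r G h
    have h' : Good F ((j + i) + 1) r G := by simpa [add_assoc] using h
    obtain ⟨G₁, h₁, e₁⟩ := tw_step h' k hk t
    obtain ⟨G₂, h₂, e₂⟩ := ih (j := j) h₁
    refine ⟨G₂, by simpa [add_assoc, add_comm, add_left_comm] using h₂, fun ξ => ?_⟩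
    rw [e₂, e₁]
    ring

/-- Poisson summation for a `Good` function vanishing at the nodes. -/
lemma poisson_good {F : 𝓢(ℝ, ℂ)} {j r : ℕ} {G : ℝ → ℂ} (h : Good F j r G) (k : ℕ) (hk : 1 ≤ k)
    (hr : r < k)
    (hz : ∀ n : ℕ, 1 ≤ n → ∀ i < k, iteratedDeriv i F (Real.sqrt (k * n)) = 0) (t : ℝ)
    (hs : Summable fun m : ℤ => 𝓕 (wv k G t) m) :
    ∑' m : ℤ, 𝓕 (wv k G t) m = 0 := by
  obtain ⟨C, hC0, hC⟩ := good_decay h
  have hfc : Continuous (wv k G t) := by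
    have := good_cont h
    unfold wv; fun_prop
  have hdec : (wv k G t) =O[cocompact ℝ] fun x : ℝ => |x| ^ (-2 : ℝ) := by
    refine Asymptotics.IsBigO.of_bound C ?_
    have : ∀ᶠ x : ℝ in cocompact ℝ, x ≠ 0 := by
      exact (isCompact_singleton (x := (0:ℝ))).compl_mem_cocompact
    filter_upwards [this] with x hx
    have hx2 : |x| ^ (-2 : ℝ) = (x ^ 2)⁻¹ := by
      rw [Real.rpow_neg (abs_nonneg x)]
      congr 1
      rw [← sq_abs x]
      exact_mod_cast Real.rpow_natCast |x| 2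
    rw [hx2, Real.norm_eq_abs, abs_of_nonneg (by positivity)]
    refine (wv_bound k hk hC0 hC t x).trans ?_
    have hx2 : 0 < x ^ 2 := by positivity
    gcongr
    linarith
  have hp := Real.tsum_eq_tsum_fourier_of_rpow_decay_of_summable hfc one_lt_two hdec hs 0
  have hl : ∑' n : ℤ, wv k G t (0 + n) = 0 := by
    have : ∀ n : ℤ, wv k G t (0 + n) = 0 := by
      intro n
      have := good_zero h k hr hz n
      simp only [wv, zero_add, this, zero_mul]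
    simp only [this, tsum_zero]
  rw [hl] at hp
  rw [hp]
  refine tsum_congr fun n => ?_
  simp

/-- Weighted Poisson summation. -/
lemma poisson_pow {F : 𝓢(ℝ, ℂ)} {j r i : ℕ} {G : ℝ → ℂ} (h : Good F (j + i) r G) (k : ℕ)
    (hk : 1 ≤ k) (hr : r + i < k)
    (hz : ∀ n : ℕ, 1 ≤ n → ∀ i < k, iteratedDeriv i F (Real.sqrt (k * n)) = 0) (t : ℝ)
    (hs : Summable fun m : ℤ => (m : ℂ) ^ i * hatG G (t - 2 * m / k)) :
    ∑' m : ℤ, (m : ℂ) ^ i * hatG G (t - 2 * m / k) = 0 := by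
  obtain ⟨G₁, h₁, e₁⟩ := tw_iter k hk t i h
  have hkc : (k : ℂ) ≠ 0 := by exact_mod_cast (by omega : k ≠ 0)
  have e : ∀ m : ℤ, 𝓕 (wv k G₁ t) m =
      ((2 * π * Complex.I) ^ i * (1 / k : ℂ)) * ((m : ℂ) ^ i * hatG G (t - 2 * m / k)) := by
    intro m
    rw [e₁, fourier_wv k hk]
    push_cast
    ring
  have hs1 : Summable fun m : ℤ => 𝓕 (wv k G₁ t) m := by
    refine (hs.mul_left ((2 * π * Complex.I) ^ i * (1 / k : ℂ))).congr fun m => ?_
    rw [e]
  have := poisson_good h₁ k hk hr hz t hs1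
  simp_rw [e] at this
  rw [tsum_mul_left] at this
  have h2 : ((2 * π * Complex.I) ^ i * (1 / k : ℂ)) ≠ 0 := by
    refine mul_ne_zero (pow_ne_zero _ ?_) (one_div_ne_zero hkc)
    refine mul_ne_zero ?_ Complex.I_ne_zero
    exact mul_ne_zero two_ne_zero (by exact_mod_cast Real.pi_ne_zero)
  exact (mul_eq_zero.1 this).resolve_left h2

end Pool.Agent.KT97
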