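import Mathlib
import Pool.Agent.Lib_helper68.KTwoC
import Pool.Agent.Lib_helper68.KTwoE
import Pool.Agent.Lib_helper97.KT.Pois

/-!
From a radial Schwartz function to the system of relations for `U(t) = ∫ g(x) e^{πit|x|²} dx`
(MP_a65497_an).
-/

set_option autoImplicit false

open MeasureTheory Set Filter Topology
open scoped FourierTransform Real SchwartzMap

namespace Pool.Agent.KT97

open Pool.Agent.H68

/-- The relations used: boundedness, inversion, Poisson relations of order `< k`. -/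
structure Sys (k κ : ℕ) (η : ℂ) (M : ℝ) (U : ℝ → ℂ) : Prop where
  cont : Continuous U
  bdd : ∀ t, ‖U t‖ ≤ M
  inv : ∀ t : ℝ, t ≠ 0 → U t = η * (Complex.I / t) ^ κ * U (-1 / t)
  poi : ∀ i < k, ∀ t : ℝ, ∑' m : ℤ, (m : ℂ) ^ i * U (t + 2 * m / k) = 0

section Boundary

variable {V : Type*} [NormedAddCommGroup V] [InnerProductSpace ℝ V] [MeasurableSpace V]
  [BorelSpace V] [FiniteDimensional ℝ V]

lemma parseval_bdry (f : 𝓢(V, ℂ)) (hf : ∀ x, f (-x) = f x) (κ : ℕ)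
    (hκ : Module.finrank ℝ V = 2 * κ) (t : ℝ) (ht : t ≠ 0) :
    Phi (f : V → ℂ) (π * Complex.I * t) =
      (Complex.I / t) ^ κ * Phi (𝓕 (f : V → ℂ)) (π * Complex.I * ((-1 / t : ℝ) : ℂ)) := by
  have hfi : Integrable (f : V → ℂ) := f.integrable
  have hFf : Integrable (𝓕 (f : V → ℂ)) := by
    rw [← SchwartzMap.fourier_coe]
    exact (𝓕 f).integrable
  set b : ℝ → ℂ := fun δ => π * (δ - Complex.I * t) with hb
  have hbre : ∀ δ, (b δ).re = π * δ := by
    intro δ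
    simp [hb]
  have hbne : ∀ δ, b δ ≠ 0 := by
    intro δ h
    have h1 : (b δ).im = -(π * t) := by simp [hb]
    rw [h] at h1
    simp only [Complex.zero_im] at h1
    have : π * t = 0 := by linarith
    rcases mul_eq_zero.1 this with h | h
    · exact Real.pi_ne_zero h
    · exact ht h
  have hbc : Continuous b := by fun_prop
  have hmain : ∀ δ : ℝ, 0 < δ → Phi (f : V → ℂ) (-b δ) =
      ((π : ℂ) / b δ) ^ κ * Phi (𝓕 (f : V → ℂ)) (-π ^ 2 / b δ) := by
    intro δ hδ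
    rw [parseval_pos f hf (b δ) (by rw [hbre]; positivity)]
    congr 1
    have : (Module.finrank ℝ V / 2 : ℂ) = ((κ : ℕ) : ℂ) := by
      rw [hκ]; push_cast; ring
    rw [this, Complex.cpow_natCast]
  have hL : Tendsto (fun δ => Phi (f : V → ℂ) (-b δ)) (𝓝[>] 0)
      (𝓝 (Phi (f : V → ℂ) (-b 0))) := by
    have h1 : ContinuousOn (fun δ : ℝ => Phi (f : V → ℂ) (-b δ)) (Ici 0) := by
      refine (Phi_continuousOn (f : V → ℂ) hfi).comp (by fun_prop) ?_
      intro δ hδ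
      simp only [mem_ofPred_eq, Complex.neg_re, hbre]
      have : (0 : ℝ) ≤ δ := hδ
      have := mul_nonneg Real.pi_pos.le this
      linarith
    have h2 := (h1 0 (le_refl (0:ℝ)))
    exact h2.mono_left (nhdsWithin_mono _ Ioi_subset_Ici_self)
  have hR : Tendsto (fun δ => ((π : ℂ) / b δ) ^ κ * Phi (𝓕 (f : V → ℂ)) (-π ^ 2 / b δ)) (𝓝[>] 0)
      (𝓝 (((π : ℂ) / b 0) ^ κ * Phi (𝓕 (f : V → ℂ)) (-π ^ 2 / b 0))) := by
    have h0 : ContinuousOn (fun δ : ℝ => ((π : ℂ) / b δ) ^ κ) (Ici 0) :=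
      (continuousOn_const.div hbc.continuousOn (fun δ _ => hbne δ)).pow κ
    have h1 : ContinuousOn (fun δ : ℝ => Phi (𝓕 (f : V → ℂ)) (-π ^ 2 / b δ)) (Ici 0) := by
      refine (Phi_continuousOn (𝓕 (f : V → ℂ)) hFf).comp
        (continuousOn_const.div hbc.continuousOn (fun δ _ => hbne δ)) ?_
      intro δ hδ
      simp only [mem_ofPred_eq]
      have hδ' : (0 : ℝ) ≤ δ := hδ
      have e : (-(π : ℂ) ^ 2 / b δ).re = -(π ^ 2 * (b δ).re) / Complex.normSq (b δ) := by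
        rw [div_eq_mul_inv]
        have : (-(π : ℂ) ^ 2) = ((-π ^ 2 : ℝ) : ℂ) := by push_cast; ring
        rw [this, Complex.re_ofReal_mul, Complex.inv_re]
        ring
      rw [e, hbre]
      apply div_nonpos_of_nonpos_of_nonneg
      · have : 0 ≤ π ^ 2 * (π * δ) := by positivity
        linarith
      · exact Complex.normSq_nonneg _
    have h2 := (h0 0 (le_refl (0:ℝ))).mul (h1 0 (le_refl (0:ℝ)))
    exact h2.mono_left (nhdsWithin_mono _ Ioi_subset_Ici_self)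
  have hEq := tendsto_nhds_unique (hL.congr' (by
    filter_upwards [self_mem_nhdsWithin] with δ hδ
    exact hmain δ hδ)) hR
  have e1 : -b 0 = π * Complex.I * t := by simp [hb]; ring
  have htc : (t : ℂ) ≠ 0 := by exact_mod_cast ht
  have e2 : -(π : ℂ) ^ 2 / b 0 = π * Complex.I * ((-1 / t : ℝ) : ℂ) := by
    rw [div_eq_iff (hbne 0)]
    simp only [hb]
    push_cast
    field_simp
    ring_nf
    rw [Complex.I_sq]
    ring
  have e3 : (π : ℂ) / b 0 = Complex.I / t := by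
    rw [div_eq_div_iff (hbne 0) htc]
    simp only [hb]
    push_cast
    ring_nf
    rw [Complex.I_sq]
    ring
  rw [e1, e2, e3] at hEq
  exact hEq

end Boundary

lemma decay_sys {k κ : ℕ} {η : ℂ} {M : ℝ} {U : ℝ → ℂ} (hη : η ^ 2 = 1)
    (hb : ∀ t, ‖U t‖ ≤ M)
    (hi : ∀ t : ℝ, t ≠ 0 → U t = η * (Complex.I / t) ^ κ * U (-1 / t)) (t : ℝ) (ht : t ≠ 0) :
    ‖U t‖ = ‖U (-1 / t)‖ / |t| ^ κ := by
  have hn : ‖η‖ = 1 := by
    have : ‖η‖ ^ 2 = 1 := by rw [← norm_pow, hη, norm_one]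
    nlinarith [norm_nonneg η]
  rw [hi t ht, norm_mul, norm_mul, hn, norm_pow, norm_div, Complex.norm_I, Complex.norm_real,
    Real.norm_eq_abs, one_mul, div_pow, one_pow]
  ring

lemma poly_decay {κ : ℕ} (hκ : 6 ≤ κ) {U : ℝ → ℂ} {M : ℝ} (hb : ∀ t, ‖U t‖ ≤ M)
    (hi : ∀ t : ℝ, t ≠ 0 → ‖U t‖ ≤ M / |t| ^ κ) (t : ℝ) :
    ‖U t‖ ≤ (2 ^ 6 * M) / (1 + |t|) ^ 6 := by
  have hM : 0 ≤ M := (norm_nonneg _).trans (hb 0)
  rw [le_div_iff₀ (by positivity)]
  rcases le_or_gt |t| 1 with h | h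
  · have h1 : (1 + |t|) ^ 6 ≤ 2 ^ 6 := by
      have := abs_nonneg t
      exact pow_le_pow_left₀ (by positivity) (by linarith) 6
    calc ‖U t‖ * (1 + |t|) ^ 6 ≤ M * 2 ^ 6 := mul_le_mul (hb t) h1 (by positivity) hM
      _ = _ := by ring
  · have ht : t ≠ 0 := by
      rintro rfl
      simp at h
      linarith
    have h1 : (1 + |t|) ^ 6 ≤ (2 * |t|) ^ 6 :=
      pow_le_pow_left₀ (by positivity) (by linarith) 6
    have h2 : |t| ^ 6 ≤ |t| ^ κ := pow_le_pow_right₀ h.le hκ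
    have h3 : 0 < |t| ^ κ := by positivity
    calc ‖U t‖ * (1 + |t|) ^ 6 ≤ (M / |t| ^ κ) * (2 * |t|) ^ 6 :=
          mul_le_mul (hi t ht) h1 (by positivity) (by positivity)
      _ = 2 ^ 6 * M * (|t| ^ 6 / |t| ^ κ) := by ring
      _ ≤ 2 ^ 6 * M * 1 := by
          gcongr
          exact (div_le_one h3).2 h2
      _ = _ := by ring

/-- Summability of `m^i U(t + 2m/k)`. -/
lemma summable_pow {k : ℕ} (hk : 1 ≤ k) {U : ℝ → ℂ} {C : ℝ} (hC0 : 0 ≤ C)
    (hC : ∀ t, ‖U t‖ ≤ C / (1 + |t|) ^ 6) (i : ℕ) (hi : i ≤ 4) (t : ℝ) :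
    Summable fun m : ℤ => |(m : ℝ)| ^ i * ‖U (t + 2 * m / k)‖ := by
  have hk' : (0 : ℝ) < k := by exact_mod_cast hk
  have hk1 : (1 : ℝ) ≤ k := by exact_mod_cast hk
  have hs : Summable fun m : ℤ => (((1 + |(m : ℝ)|) ^ 2)⁻¹ : ℝ) := summable_aux
  refine Summable.of_nonneg_of_le (fun m => by positivity) (fun m => ?_)
    (hs.mul_left (C * (k * (1 + |t|)) ^ 6))
  -- `1 + |m| ≤ k (1+|t|) (1 + |t + 2m/k|)`
  have h1 : 1 + |(m : ℝ)| ≤ k * (1 + |t|) * (1 + |t + 2 * m / k|) := by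
    have e : (m : ℝ) = k / 2 * ((t + 2 * m / k) - t) := by field_simp; ring
    have h2 : |(m : ℝ)| ≤ k / 2 * (|t + 2 * m / k| + |t|) := by
      calc |(m : ℝ)| = |k / 2 * ((t + 2 * m / k) - t)| := by rw [← e]
        _ = k / 2 * |(t + 2 * m / k) - t| := by rw [abs_mul, abs_of_pos (by positivity)]
        _ ≤ k / 2 * (|t + 2 * m / k| + |t|) := by
            gcongr
            exact abs_sub _ _
    have := abs_nonneg t
    have := abs_nonneg (t + 2 * m / k)
    have h3 : 0 ≤ |t| * |t + 2 * m / k| := by positivity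
    nlinarith
  have h4 : |(m : ℝ)| ^ i ≤ (1 + |(m : ℝ)|) ^ 4 := by
    calc |(m : ℝ)| ^ i ≤ (1 + |(m : ℝ)|) ^ i :=
          pow_le_pow_left₀ (abs_nonneg _) (by linarith) i
      _ ≤ (1 + |(m : ℝ)|) ^ 4 := pow_le_pow_right₀ (by linarith [abs_nonneg (m : ℝ)]) hi
  have h5 : (1 + |(m : ℝ)|) ^ 6 ≤ (k * (1 + |t|)) ^ 6 * (1 + |t + 2 * m / k|) ^ 6 := by
    rw [← mul_pow]
    exact pow_le_pow_left₀ (by positivity) h1 6
  calc |(m : ℝ)| ^ i * ‖U (t + 2 * m / k)‖
      ≤ (1 + |(m : ℝ)|) ^ 4 * (C / (1 + |t + 2 * m / k|) ^ 6) :=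
        mul_le_mul h4 (hC _) (norm_nonneg _) (by positivity)
    _ = C * ((1 + |(m : ℝ)|) ^ 6 / (1 + |t + 2 * m / k|) ^ 6) * ((1 + |(m : ℝ)|) ^ 2)⁻¹ := by
        field_simp
    _ ≤ C * ((k * (1 + |t|)) ^ 6) * ((1 + |(m : ℝ)|) ^ 2)⁻¹ := by
        gcongr
        rw [div_le_iff₀ (by positivity)]
        exact h5

section Main

variable {d : ℕ}

/-- The system attached to an eigenfunction of the Fourier transform and the uniqueness
statement `U = 0 → g = 0`. -/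
lemma sys_of_schwartz (κ k : ℕ) (hκ : 6 ≤ κ) (hk1 : 1 ≤ k) (hk4 : k ≤ 4) (hd : d = 2 * κ)
    (g : 𝓢(EuclideanSpace ℝ (Fin d), ℂ))
    (hg : ∀ x y : EuclideanSpace ℝ (Fin d), ‖x‖ = ‖y‖ → g x = g y)
    (η : ℂ) (hη : η ^ 2 = 1)
    (hF : ∀ x, 𝓕 (g : EuclideanSpace ℝ (Fin d) → ℂ) x = η * g x)
    (e : EuclideanSpace ℝ (Fin d)) (he : ‖e‖ = 1)
    (hz : ∀ n : ℕ, 1 ≤ n → ∀ i < k,
      iteratedDeriv i (fun t : ℝ => g (t • e)) (Real.sqrt (k * n)) = 0) :
    ∃ (M : ℝ) (U : ℝ → ℂ), Sys k κ η M U ∧ ((∀ t, U t = 0) → g = 0) := by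
  set U : ℝ → ℂ := fun t => Phi (g : EuclideanSpace ℝ (Fin d) → ℂ) (π * Complex.I * t) with hU
  set M : ℝ := ∫ x, ‖g x‖ with hM
  have heven : ∀ x : EuclideanSpace ℝ (Fin d), g (-x) = g x := fun x => hg _ _ (norm_neg x)
  have hre : ∀ t : ℝ, (π * Complex.I * t : ℂ).re ≤ 0 := by intro t; simp
  have hcont : Continuous U := by
    have := (Phi_continuousOn (g : EuclideanSpace ℝ (Fin d) → ℂ) g.integrable).comp
      (f := fun t : ℝ => (π * Complex.I * t : ℂ)) (s := univ)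
      (by fun_prop) (fun t _ => hre t)
    rwa [← continuousOn_univ]
  have hbdd : ∀ t, ‖U t‖ ≤ M := fun t =>
    Phi_norm_le (g : EuclideanSpace ℝ (Fin d) → ℂ) g.integrable _ (hre t)
  have hinv : ∀ t : ℝ, t ≠ 0 → U t = η * (Complex.I / t) ^ κ * U (-1 / t) := by
    intro t ht
    have := parseval_bdry g heven κ (by simp [hd]) t ht
    simp only [hU]
    rw [this]
    have e1 : Phi (𝓕 (g : EuclideanSpace ℝ (Fin d) → ℂ)) (π * Complex.I * ((-1 / t : ℝ) : ℂ)) =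
        η * Phi (g : EuclideanSpace ℝ (Fin d) → ℂ) (π * Complex.I * ((-1 / t : ℝ) : ℂ)) := by
      unfold Phi
      rw [← integral_const_mul]
      refine integral_congr_ae (Eventually.of_forall fun x => ?_)
      simp only [hF x]
      ring
    rw [e1]
    ring
  have hdec : ∀ t, ‖U t‖ ≤ (2 ^ 6 * M) / (1 + |t|) ^ 6 := by
    refine poly_decay hκ hbdd fun t ht => ?_
    rw [decay_sys (k := k) hη hbdd hinv t ht]
    gcongr
    exact hbdd _
  have hM0 : 0 ≤ M := (norm_nonneg _).trans (hbdd 0)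
  -- the profile
  obtain ⟨F, hFp⟩ := exists_profile g e he
  have hFeq : (fun r : ℝ => g (r • e)) = F := by ext r; exact (hFp r).symm
  obtain ⟨n, hn⟩ : ∃ n, d = n + 4 := ⟨d - 4, by omega⟩
  subst hn
  set G : ℝ → ℂ := H68.sq F (n + 2) with hG
  have hgood : ∀ i < k, Good F (0 + i) 0 G := by
    intro i hi
    exact Good.base 0 (n + 2) le_rfl (by omega)
  set c : ℂ := (((n + 2 + 2 : ℕ) : ℂ) *
    (volume.real (Metric.ball (0 : EuclideanSpace ℝ (Fin (n + 4))) 1) : ℂ) / 2) with hc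
  have hc0 : c ≠ 0 := by
    have hv : 0 < volume.real (Metric.ball (0 : EuclideanSpace ℝ (Fin (n + 4))) 1) := by
      rw [measureReal_def]
      exact ENNReal.toReal_pos (Metric.measure_ball_pos volume _ one_pos).ne'
        measure_ball_lt_top.ne
    have hv' : (volume.real (Metric.ball (0 : EuclideanSpace ℝ (Fin (n + 4))) 1) : ℂ) ≠ 0 := by
      exact_mod_cast hv.ne'
    have hn' : ((n + 2 + 2 : ℕ) : ℂ) ≠ 0 := by exact_mod_cast (by omega : n + 2 + 2 ≠ 0)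
    rw [hc]
    exact div_ne_zero (mul_ne_zero hn' hv') (by norm_num)
  have hrel : ∀ t, U t = c * hatG G t := by
    intro t
    simp only [hU]
    rw [polar (g : EuclideanSpace ℝ (Fin (n + 4)) → ℂ) hg e he (n + 2) (by omega)
      (by simp) (π * Complex.I * t), hFeq]
    rfl
  have hrel' : ∀ t, hatG G t = c⁻¹ * U t := by
    intro t
    rw [hrel t, ← mul_assoc, inv_mul_cancel₀ hc0, one_mul]
  have hpoi : ∀ i < k, ∀ t : ℝ, ∑' m : ℤ, (m : ℂ) ^ i * U (t + 2 * m / k) = 0 := by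
    intro i hi t
    have hsum : Summable fun m : ℤ => (m : ℂ) ^ i * U (t + 2 * m / k) := by
      apply Summable.of_norm
      refine (summable_pow hk1 (by positivity) hdec i (by omega) t).congr fun m => ?_
      rw [norm_mul, norm_pow, Complex.norm_intCast]
    have hs2 : Summable fun m : ℤ => (m : ℂ) ^ i * hatG G (t - 2 * m / k) := by
      have b : Summable fun m : ℤ => (((-m : ℤ) : ℂ)) ^ i * U (t + 2 * ((-m : ℤ) : ℝ) / k) :=
        (Equiv.neg ℤ).summable_iff.2 hsum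
      refine (b.mul_left ((-1) ^ i * c⁻¹)).congr fun m => ?_
      rw [hrel']
      have : t + 2 * ((-m : ℤ) : ℝ) / k = t - 2 * m / k := by push_cast; ring
      rw [this]
      push_cast
      rw [neg_pow (m : ℂ) i]
      have h1 : ((-1 : ℂ) ^ i) * (-1) ^ i = 1 := by
        rw [← mul_pow]; norm_num
      linear_combination (c⁻¹ * (m : ℂ) ^ i * U (t - 2 * m / k)) * h1
    have p := poisson_pow (hgood i hi) k hk1 (by omega)
      (by intro n hn i hi; rw [← hFeq]; exact hz n hn i hi) t hs2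
    have e2 : ∑' m : ℤ, (m : ℂ) ^ i * U (t + 2 * m / k) =
        ((-1) ^ i * c) * ∑' m : ℤ, (m : ℂ) ^ i * hatG G (t - 2 * m / k) := by
      rw [← tsum_mul_left,
        ← (Equiv.neg ℤ).tsum_eq (fun m : ℤ => (m : ℂ) ^ i * U (t + 2 * m / k))]
      refine tsum_congr fun m => ?_
      rw [hrel]
      have : t + 2 * ((Equiv.neg ℤ m : ℤ) : ℝ) / k = t - 2 * m / k := by
        simp only [Equiv.neg_apply]; push_cast; ring
      rw [this]
      simp only [Equiv.neg_apply]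
      push_cast
      rw [neg_pow (m : ℂ) i]
      ring
    rw [e2, p, mul_zero]
  refine ⟨M, U, ⟨hcont, hbdd, hinv, hpoi⟩, fun hz0 => ?_⟩
  have hGc : Continuous G := sq_continuous F F.continuous _
  obtain ⟨C, hC⟩ := sq_decay F (n + 2) (by omega)
  have hGz : ∀ s, G s = 0 := by
    refine eq_zero_of_hatG G hGc (integrable_of_sq_decay G hGc C hC) fun t => ?_
    rw [hrel', hz0, mul_zero]
  have hFz : ∀ r : ℝ, 0 < r → F r = 0 := by
    intro r hr
    have := hGz (r ^ 2)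
    simp only [hG, H68.sq, Real.sqrt_sq hr.le] at this
    rcases mul_eq_zero.1 this with h | h
    · exact h
    · exfalso
      have : (r : ℂ) ≠ 0 := by exact_mod_cast hr.ne'
      exact (pow_ne_zero _ this) h
  have hF0 : ∀ r : ℝ, 0 ≤ r → F r = 0 := by
    intro r hr
    have hcl : r ∈ closure (Ioi (0 : ℝ)) := by rw [closure_Ioi]; exact hr
    have : EqOn F 0 (closure (Ioi (0 : ℝ))) :=
      EqOn.closure (fun r hr => hFz r hr) F.continuous continuous_const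
    exact this hcl
  ext x
  have : g x = g (‖x‖ • e) := by
    apply hg
    rw [norm_smul, he, mul_one, norm_norm]
  rw [this, ← hFp, hF0 _ (norm_nonneg x)]
  rfl

end Main

end Pool.Agent.KT97
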