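import Mathlib
import Pool.Agent.Lib_helper97.KT.Sys

/-!
Cusp coordinates, chains, telescoping, and the split Poisson relation (MP_a65497_an).
-/

set_option autoImplicit false

open Set Filter Topology

namespace Pool.Agent.KT97

/-- `w^{-κ} U(x + 1/w)`. -/
noncomputable def Fn (U : ℝ → ℂ) (κ : ℕ) (x w : ℝ) : ℂ := U (x + 1 / w) / (w : ℂ) ^ κ

section Basic

variable {k κ : ℕ} {η : ℂ} {M : ℝ} {U : ℝ → ℂ}

lemma norm_eta (hη : η ^ 2 = 1) : ‖η‖ = 1 := by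
  have : ‖η‖ ^ 2 = 1 := by rw [← norm_pow, hη, norm_one]
  nlinarith [norm_nonneg η]

lemma Sys.refl (h : Sys k κ η M U) : Sys k κ (η * (-1) ^ κ) M (fun t => U (-t)) where
  cont := h.cont.comp continuous_neg
  bdd := fun t => h.bdd _
  inv := by
    intro t ht
    have e := h.inv (-t) (neg_ne_zero.2 ht)
    have e1 : (-1 / -t : ℝ) = -(-1 / t) := by
      rw [div_neg]
    rw [e1] at e
    rw [e]
    have e2 : (Complex.I / ((-t : ℝ) : ℂ)) = (-1) * (Complex.I / t) := by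
      push_cast
      rw [div_neg]
      ring
    rw [e2, mul_pow]
    ring
  poi := by
    intro i hi t
    have e := h.poi i hi (-t)
    have e2 : ∑' m : ℤ, (m : ℂ) ^ i * U (-(t + 2 * m / k)) =
        (-1) ^ i * ∑' m : ℤ, (m : ℂ) ^ i * U (-t + 2 * m / k) := by
      rw [← tsum_mul_left,
        ← (Equiv.neg ℤ).tsum_eq (fun m : ℤ => (m : ℂ) ^ i * U (-(t + 2 * m / k)))]
      refine tsum_congr fun m => ?_
      simp only [Equiv.neg_apply]
      have : -(t + 2 * ((-m : ℤ) : ℝ) / k) = -t + 2 * m / k := by push_cast; ring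
      rw [this]
      push_cast
      rw [neg_pow (m : ℂ) i]
      ring
    show ∑' m : ℤ, (m : ℂ) ^ i * U (-(t + 2 * m / k)) = 0
    rw [e2, e, mul_zero]

lemma Sys.norm_inv (h : Sys k κ η M U) (hη : η ^ 2 = 1) (t : ℝ) (ht : t ≠ 0) :
    ‖U t‖ = ‖U (-1 / t)‖ / |t| ^ κ :=
  decay_sys (k := k) hη h.bdd h.inv t ht

lemma Sys.dec (h : Sys k κ η M U) (hη : η ^ 2 = 1) (hκ : 6 ≤ κ) (t : ℝ) :
    ‖U t‖ ≤ (2 ^ 6 * M) / (1 + |t|) ^ 6 := by
  refine poly_decay hκ h.bdd (fun t ht => ?_) t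
  rw [h.norm_inv hη t ht]
  gcongr
  exact h.bdd _

lemma Sys.M_nonneg (h : Sys k κ η M U) : 0 ≤ M := (norm_nonneg _).trans (h.bdd 0)

lemma norm_Fn (U : ℝ → ℂ) (κ : ℕ) (x w : ℝ) (hw : 0 < w) :
    ‖Fn U κ x w‖ = ‖U (x + 1 / w)‖ / w ^ κ := by
  rw [Fn, norm_div, norm_pow, Complex.norm_real, Real.norm_eq_abs, abs_of_pos hw]

lemma Fn_inv (h : Sys k κ η M U) (x w : ℝ) (hx : x ≠ 0) (hw : w ≠ 0) (hxw : x * w + 1 ≠ 0) :
    Fn U κ x w = η * (Complex.I * x) ^ κ * Fn U κ (-1 / x) (x ^ 2 * w + x) := by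
  have h1 : x + 1 / w = (x * w + 1) / w := by field_simp
  have h2 : x + 1 / w ≠ 0 := by rw [h1]; exact div_ne_zero hxw hw
  have h3 : x ^ 2 * w + x = x * (x * w + 1) := by ring
  have h4 : x ^ 2 * w + x ≠ 0 := by rw [h3]; exact mul_ne_zero hx hxw
  have h5 : -1 / (x + 1 / w) = -1 / x + 1 / (x ^ 2 * w + x) := by
    rw [h1, h3]
    field_simp
    ring
  unfold Fn
  rw [h.inv _ h2, h5]
  have hwc : (w : ℂ) ≠ 0 := by exact_mod_cast hw
  have hxc : (x : ℂ) ≠ 0 := by exact_mod_cast hx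
  have h6 : (x : ℂ) * w + 1 ≠ 0 := by exact_mod_cast hxw
  have e : (Complex.I / ((x + 1 / w : ℝ) : ℂ)) ^ κ / (w : ℂ) ^ κ =
      (Complex.I * x) ^ κ / (((x ^ 2 * w + x : ℝ)) : ℂ) ^ κ := by
    rw [← div_pow, ← div_pow, h1, h3]
    congr 1
    push_cast
    field_simp
  calc η * (Complex.I / ((x + 1 / w : ℝ) : ℂ)) ^ κ * U (-1 / x + 1 / (x ^ 2 * w + x)) / (w : ℂ) ^ κ
      = η * U (-1 / x + 1 / (x ^ 2 * w + x)) *
        ((Complex.I / ((x + 1 / w : ℝ) : ℂ)) ^ κ / (w : ℂ) ^ κ) := by ring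
    _ = _ := by rw [e]; ring

end Basic

section Chain

/-- Bernoulli with step `r`. -/
lemma bern (κ : ℕ) (hκ : 1 ≤ κ) (w r : ℝ) (hw : 0 < w) (hr : 0 < r) :
    (r * ((κ : ℝ) - 1) + (w + r)) * w ^ κ ≤ w * (w + r) ^ κ := by
  have h1 : 1 + (κ : ℝ) * (r / w) ≤ (1 + r / w) ^ κ :=
    one_add_mul_le_pow (by have : 0 < r / w := by positivity
                           linarith) κ
  have h2 : (w + r) ^ κ = w ^ κ * (1 + r / w) ^ κ := by
    rw [← mul_pow]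
    congr 1
    field_simp
  have h3 : w * (1 + (κ : ℝ) * (r / w)) = w + κ * r := by field_simp
  rw [h2]
  have h4 : 0 < w ^ κ := by positivity
  have h5 : r * ((κ : ℝ) - 1) + (w + r) = w + κ * r := by ring
  calc (r * ((κ : ℝ) - 1) + (w + r)) * w ^ κ = (w + κ * r) * w ^ κ := by rw [h5]
    _ = w * (1 + (κ : ℝ) * (r / w)) * w ^ κ := by rw [h3]
    _ ≤ w * (1 + r / w) ^ κ * w ^ κ := by gcongr
    _ = _ := by ring

lemma chain (κ : ℕ) (hκ : 2 ≤ κ) (b : ℝ → ℂ) (χ : ℂ) (hχ : ‖χ‖ = 1) (r : ℝ) (hr : 0 < r)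
    (w0 : ℝ) (hw0 : 0 < w0) (B M : ℝ) (hB : 0 ≤ B) (hb : ∀ w, w0 ≤ w → ‖b w‖ ≤ M / w ^ κ)
    (hd : ∀ w, w0 ≤ w → ‖b w - χ * b (w + r)‖ ≤ B / w ^ κ) (w : ℝ) (hw : w0 ≤ w) :
    ‖b w‖ ≤ B * (1 + w / (r * (κ - 1))) / w ^ κ := by
  have hk : (0 : ℝ) < (κ : ℝ) - 1 := by
    have : (2 : ℝ) ≤ κ := by exact_mod_cast hκ
    linarith
  have hrk : 0 < r * ((κ : ℝ) - 1) := by positivity
  have hM : 0 ≤ M := by
    have h1 := (norm_nonneg _).trans (hb w0 le_rfl)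
    by_contra hneg
    push Not at hneg
    have : M / w0 ^ κ < 0 := div_neg_of_neg_of_pos hneg (by positivity)
    linarith
  have key : ∀ n : ℕ, ∀ w, w0 ≤ w →
      ‖b w‖ ≤ B * (1 + w / (r * (κ - 1))) / w ^ κ + M / (w + n * r) ^ κ := by
    intro n
    induction n with
    | zero =>
      intro w hw
      have hwp : 0 < w := hw0.trans_le hw
      have : 0 ≤ B * (1 + w / (r * (κ - 1))) / w ^ κ := by positivity
      have := hb w hw
      simp only [Nat.cast_zero, zero_mul, add_zero]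
      linarith
    | succ n ih =>
      intro w hw
      have hwp : 0 < w := hw0.trans_le hw
      have h1 := ih (w + r) (by linarith)
      have h2 := hd w hw
      have h3 : ‖b w‖ ≤ ‖b w - χ * b (w + r)‖ + ‖b (w + r)‖ := by
        calc ‖b w‖ = ‖(b w - χ * b (w + r)) + χ * b (w + r)‖ := by congr 1; ring
          _ ≤ ‖b w - χ * b (w + r)‖ + ‖χ * b (w + r)‖ := norm_add_le _ _
          _ = _ := by rw [norm_mul, hχ, one_mul]
      have h4 : w + r + n * r = w + ((n + 1 : ℕ) : ℝ) * r := by push_cast; ring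
      rw [h4] at h1
      have h5 : B / w ^ κ + B * (1 + (w + r) / (r * (κ - 1))) / (w + r) ^ κ ≤
          B * (1 + w / (r * (κ - 1))) / w ^ κ := by
        have hbn := bern κ (by omega) w r hwp hr
        have h6 : (1 + (w + r) / (r * ((κ : ℝ) - 1))) / (w + r) ^ κ ≤
            (w / (r * ((κ : ℝ) - 1))) / w ^ κ := by
          rw [div_le_div_iff₀ (by positivity) (by positivity)]
          have e1 : (1 + (w + r) / (r * ((κ : ℝ) - 1))) * w ^ κ =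
              ((r * ((κ : ℝ) - 1) + (w + r)) * w ^ κ) / (r * ((κ : ℝ) - 1)) := by
            rw [eq_div_iff hrk.ne']
            have : (w + r) / (r * ((κ : ℝ) - 1)) * (r * ((κ : ℝ) - 1)) = w + r :=
              div_mul_cancel₀ _ hrk.ne'
            linear_combination (w ^ κ) * this
          have e2 : w / (r * ((κ : ℝ) - 1)) * (w + r) ^ κ =
              (w * (w + r) ^ κ) / (r * ((κ : ℝ) - 1)) := by ring
          rw [e1, e2]
          exact div_le_div_of_nonneg_right hbn hrk.le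
        calc B / w ^ κ + B * (1 + (w + r) / (r * (κ - 1))) / (w + r) ^ κ
            = B / w ^ κ + B * ((1 + (w + r) / (r * (κ - 1))) / (w + r) ^ κ) := by ring
          _ ≤ B / w ^ κ + B * ((w / (r * (κ - 1))) / w ^ κ) := by gcongr
          _ = _ := by ring
      linarith
  -- limit
  have hwp : 0 < w := hw0.trans_le hw
  have hlim : Tendsto (fun n : ℕ => B * (1 + w / (r * (κ - 1))) / w ^ κ + M / (w + n * r) ^ κ) atTop
      (𝓝 (B * (1 + w / (r * (κ - 1))) / w ^ κ + 0)) := by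
    refine tendsto_const_nhds.add ?_
    refine Tendsto.div_atTop tendsto_const_nhds ?_
    have h1 : Tendsto (fun n : ℕ => w + (n : ℝ) * r) atTop atTop :=
      tendsto_atTop_add_const_left _ _
        ((tendsto_natCast_atTop_atTop (R := ℝ)).atTop_mul_const hr)
    exact (tendsto_pow_atTop (by omega : κ ≠ 0)).comp h1
  rw [add_zero] at hlim
  exact ge_of_tendsto hlim (Eventually.of_forall fun n => key n w hw)

lemma tele (b : ℝ → ℂ) (χ : ℂ) (r : ℝ) (n : ℕ) (w : ℝ) :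
    b w - χ ^ n * b (w + n * r) =
      ∑ j ∈ Finset.range n, χ ^ j * (b (w + j * r) - χ * b (w + j * r + r)) := by
  induction n with
  | zero => simp
  | succ n ih =>
    rw [Finset.sum_range_succ, ← ih]
    have : w + ((n + 1 : ℕ) : ℝ) * r = w + n * r + r := by push_cast; ring
    rw [this]
    ring

lemma tele_le (κ : ℕ) (b : ℝ → ℂ) (χ : ℂ) (hχ : ‖χ‖ = 1) (r : ℝ) (hr : 0 ≤ r)
    (w0 : ℝ) (hw0 : 0 < w0) (B : ℝ) (hB : 0 ≤ B)
    (hd : ∀ w, w0 ≤ w → ‖b w - χ * b (w + r)‖ ≤ B / w ^ κ) (n : ℕ) (w : ℝ) (hw : w0 ≤ w) :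
    ‖b w - χ ^ n * b (w + n * r)‖ ≤ n * (B / w ^ κ) := by
  rw [tele]
  have hwp : 0 < w := hw0.trans_le hw
  refine (norm_sum_le _ _).trans ?_
  have : ∀ j ∈ Finset.range n, ‖χ ^ j * (b (w + j * r) - χ * b (w + j * r + r))‖ ≤ B / w ^ κ := by
    intro j _
    rw [norm_mul, norm_pow, hχ, one_pow, one_mul]
    have hj : 0 ≤ (j : ℝ) * r := by positivity
    refine (hd (w + j * r) (by linarith)).trans ?_
    gcongr
    linarith
  refine (Finset.sum_le_sum this).trans ?_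
  simp

end Chain

section Rel

lemma summable_inv_sq : Summable fun n : ℕ => (1 : ℝ) / ((n : ℝ) + 1) ^ 2 := by
  have h := (summable_nat_add_iff 1).2 (Real.summable_one_div_nat_pow.2 one_lt_two)
  refine h.congr fun n => ?_
  push_cast
  rfl

lemma tsum_inv_sq_le : ∑' n : ℕ, (1 : ℝ) / ((n : ℝ) + 1) ^ 2 ≤ 2 := by
  refine Real.tsum_le_of_sum_range_le (fun n => by positivity) fun n => ?_
  have key : ∀ n : ℕ, ∑ i ∈ Finset.range (n + 1), (1 : ℝ) / ((i : ℝ) + 1) ^ 2 ≤ 2 - 1 / ((n : ℝ) + 1) := by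
    intro n
    induction n with
    | zero => norm_num
    | succ n ih =>
      rw [Finset.sum_range_succ]
      have h1 : (1 : ℝ) / (((n + 1 : ℕ) : ℝ) + 1) ^ 2 ≤ 1 / ((n : ℝ) + 1) - 1 / (((n + 1 : ℕ) : ℝ) + 1) := by
        push_cast
        have hn : (0 : ℝ) ≤ n := Nat.cast_nonneg n
        rw [div_sub_div _ _ (by positivity) (by positivity), div_le_div_iff₀ (by positivity) (by positivity)]
        nlinarith
      linarith
  rcases n with _ | n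
  · simp
  · refine (key n).trans ?_
    have : (0 : ℝ) < 1 / ((n : ℝ) + 1) := by positivity
    linarith

/-- Polynomial form of the Poisson relations. -/
lemma rel_poly {k κ : ℕ} {η : ℂ} {M : ℝ} {U : ℝ → ℂ} (hk1 : 1 ≤ k) (hk4 : k ≤ 4)
    (h : Sys k κ η M U) (hη : η ^ 2 = 1) (hκ : 6 ≤ κ) (a : ℕ → ℂ) (t : ℝ) :
    (Summable fun m : ℤ => ‖(∑ i ∈ Finset.range k, a i * (m : ℂ) ^ i) * U (t + 2 * m / k)‖) ∧
    ∑' m : ℤ, (∑ i ∈ Finset.range k, a i * (m : ℂ) ^ i) * U (t + 2 * m / k) = 0 := by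
  have hM := h.M_nonneg
  have hs : ∀ i ∈ Finset.range k, Summable fun m : ℤ => a i * ((m : ℂ) ^ i * U (t + 2 * m / k)) := by
    intro i hi
    rw [Finset.mem_range] at hi
    apply Summable.mul_left
    apply Summable.of_norm
    refine (summable_pow hk1 (by positivity) (h.dec hη hκ) i (by omega) t).congr fun m => ?_
    rw [norm_mul, norm_pow, Complex.norm_intCast]
  have e : ∀ m : ℤ, (∑ i ∈ Finset.range k, a i * (m : ℂ) ^ i) * U (t + 2 * m / k) =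
      ∑ i ∈ Finset.range k, a i * ((m : ℂ) ^ i * U (t + 2 * m / k)) := by
    intro m
    rw [Finset.sum_mul]
    exact Finset.sum_congr rfl fun i _ => by ring
  constructor
  · have : Summable fun m : ℤ => (∑ i ∈ Finset.range k, a i * (m : ℂ) ^ i) * U (t + 2 * m / k) := by
      refine (summable_sum hs).congr fun m => ?_
      rw [e]
    exact this.norm
  · simp_rw [e]
    rw [Summable.tsum_finsetSum hs]
    refine Finset.sum_eq_zero fun i hi => ?_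
    rw [Finset.mem_range] at hi
    rw [tsum_mul_left, h.poi i hi t, mul_zero]

/-- Splitting a vanishing sum over `ℤ`. -/
lemma split_zero (f : ℤ → ℂ) (hs : Summable fun m => ‖f m‖) (h0 : ∑' m, f m = 0) (N N' : ℕ)
    (b : ℝ) (h1 : ∀ n : ℕ, ‖f ((n + N : ℕ) : ℤ)‖ ≤ b / ((n : ℝ) + 1) ^ 2)
    (h2 : ∀ n : ℕ, ‖f (-(((n + N' : ℕ) : ℤ) + 1))‖ ≤ b / ((n : ℝ) + 1) ^ 2) :
    ∃ R : ℂ, ‖R‖ ≤ 4 * b ∧ ∑ n ∈ Finset.range N, f (n : ℤ) +
      ∑ n ∈ Finset.range N', f (-((n : ℤ) + 1)) + R = 0 := by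
  have hf : Summable f := hs.of_norm
  have s1 : Summable fun n : ℕ => f (n : ℤ) := hf.comp_injective Nat.cast_injective
  have s2 : Summable fun n : ℕ => f (-((n : ℤ) + 1)) := by
    refine hf.comp_injective (i := fun n : ℕ => (-((n : ℤ) + 1) : ℤ)) ?_
    intro a b hab
    simp only at hab
    omega
  have e := tsum_of_nat_of_neg_add_one s1 s2
  rw [h0] at e
  have a1 := s1.sum_add_tsum_nat_add N
  have a2 := s2.sum_add_tsum_nat_add N'
  have hb : 0 ≤ b := by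
    have := (norm_nonneg _).trans (h1 0)
    simpa using this
  have hsum : Summable fun n : ℕ => b / ((n : ℝ) + 1) ^ 2 := by
    refine (summable_inv_sq.mul_left b).congr fun n => ?_
    ring
  have hle : ∑' n : ℕ, b / ((n : ℝ) + 1) ^ 2 ≤ b * 2 := by
    have : ∑' n : ℕ, b / ((n : ℝ) + 1) ^ 2 = b * ∑' n : ℕ, (1 : ℝ) / ((n : ℝ) + 1) ^ 2 := by
      rw [← tsum_mul_left]
      exact tsum_congr fun n => by ring
    rw [this]
    exact mul_le_mul_of_nonneg_left tsum_inv_sq_le hb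
  refine ⟨∑' n : ℕ, f ((n + N : ℕ) : ℤ) + ∑' n : ℕ, f (-(((n + N' : ℕ) : ℤ) + 1)), ?_, ?_⟩
  · refine (norm_add_le _ _).trans ?_
    have b1 : ‖∑' n : ℕ, f ((n + N : ℕ) : ℤ)‖ ≤ b * 2 :=
      (tsum_of_norm_bounded hsum.hasSum h1).trans hle
    have b2 : ‖∑' n : ℕ, f (-(((n + N' : ℕ) : ℤ) + 1))‖ ≤ b * 2 :=
      (tsum_of_norm_bounded hsum.hasSum h2).trans hle
    linarith
  · have : (0 : ℂ) = (∑ n ∈ Finset.range N, f (n : ℤ) + ∑' n : ℕ, f ((n + N : ℕ) : ℤ)) +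
      (∑ n ∈ Finset.range N', f (-((n : ℤ) + 1)) + ∑' n : ℕ, f (-(((n + N' : ℕ) : ℤ) + 1))) := by
      rw [a1, a2, ← e]
    rw [this]
    ring

end Rel

section Tools

lemma U_of_chain {κ : ℕ} {U : ℝ → ℂ} {M : ℝ} (hM : ∀ t, ‖U t‖ ≤ M) (K : ℝ) (hK : 0 < K)
    (hκ2 : 2 ≤ κ) (χ : ℂ) (hχ : ‖χ‖ = 1) (r : ℝ) (hr : 0 < r) (hκ : K ≤ r * ((κ : ℝ) - 1)) (w0 : ℝ)
    (hw0 : 0 < w0) (x B : ℝ) (hB : 0 ≤ B)
    (hd : ∀ w, w0 ≤ w → ‖Fn U κ x w - χ * Fn U κ x (w + r)‖ ≤ B / w ^ κ) (δ : ℝ) (hδ : 0 < δ)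
    (t : ℝ) (h1 : δ ≤ t - x) (h2 : t ≤ x + 1 / w0) : ‖U t‖ ≤ B * (1 + 1 / (K * δ)) := by
  have hp : 0 < t - x := by linarith
  have hw : w0 ≤ 1 / (t - x) := by
    rw [le_div_iff₀ hp]
    have : t - x ≤ 1 / w0 := by linarith
    rw [le_div_iff₀ hw0] at this
    linarith
  have hwp : 0 < 1 / (t - x) := by positivity
  have hk0 : (0 : ℝ) < r * ((κ : ℝ) - 1) := by linarith
  have e := chain κ hκ2 (Fn U κ x) χ hχ r hr w0 hw0 B M hB (fun w hw' => by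
    rw [norm_Fn U κ x w (hw0.trans_le hw')]
    have : 0 < w := hw0.trans_le hw'
    gcongr
    exact hM _) hd (1 / (t - x)) hw
  rw [norm_Fn U κ x _ hwp] at e
  have e1 : x + 1 / (1 / (t - x)) = t := by
    rw [one_div_one_div]; ring
  rw [e1, div_le_div_iff_of_pos_right (by positivity)] at e
  refine e.trans ?_
  have e2 : 1 / (t - x) / (r * ((κ : ℝ) - 1)) ≤ 1 / (K * δ) := by
    rw [div_div, mul_comm (t - x)]
    gcongr
  gcongr

lemma nadd {a b : ℂ} {x y : ℝ} (ha : ‖a‖ ≤ x) (hb : ‖b‖ ≤ y) : ‖a + b‖ ≤ x + y :=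
  (norm_add_le _ _).trans (add_le_add ha hb)

lemma nsub {a b : ℂ} {x y : ℝ} (ha : ‖a‖ ≤ x) (hb : ‖b‖ ≤ y) : ‖a - b‖ ≤ x + y :=
  (norm_sub_le _ _).trans (add_le_add ha hb)

lemma nmul {a : ℂ} {x : ℝ} (c : ℝ) (ha : ‖a‖ ≤ x) : ‖(c : ℂ) * a‖ ≤ |c| * x := by
  rw [norm_mul, Complex.norm_real, Real.norm_eq_abs]
  gcongr

lemma nshift {χ : ℂ} {κ : ℕ} (hχ : ‖χ‖ = 1) {x : ℝ → ℂ} {C w0 : ℝ} (hC : 0 ≤ C) (hw0 : 0 < w0)
    (hx : ∀ w, w0 ≤ w → ‖x w‖ ≤ C / w ^ κ) (r : ℝ) (hr : 0 ≤ r) (w : ℝ) (hw : w0 ≤ w) :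
    ‖x w - χ * x (w + r)‖ ≤ 2 * (C / w ^ κ) := by
  have h1 := hx w hw
  have h2 := hx (w + r) (by linarith)
  have hwp : 0 < w := by linarith
  have h3 : C / (w + r) ^ κ ≤ C / w ^ κ := by
    gcongr
    linarith
  have h4 : ‖χ * x (w + r)‖ ≤ C / w ^ κ := by
    rw [norm_mul, hχ, one_mul]
    exact h2.trans h3
  refine (nsub h1 h4).trans (le_of_eq ?_)
  ring

lemma scale_le {κ K : ℕ} (hκ : K ≤ κ) {B w v s ρ : ℝ} (hB : 0 ≤ B) (hw : 0 < w) (hs : 0 < s)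
    (hρ : 1 ≤ ρ) (hv : s * ρ * w ≤ v) : s ^ κ * (B / v ^ κ) ≤ B / ρ ^ K / w ^ κ := by
  have hρ0 : 0 < ρ := by linarith
  calc s ^ κ * (B / v ^ κ) ≤ s ^ κ * (B / (s * ρ * w) ^ κ) := by gcongr
    _ = B / ρ ^ κ / w ^ κ := by
      rw [mul_pow, mul_pow]
      field_simp
    _ ≤ B / ρ ^ K / w ^ κ := by
      gcongr

lemma chi_facts {κ : ℕ} {η χ : ℂ} (hη : η ^ 2 = 1) (hχe : χ = -(η * Complex.I ^ κ)) :
    ‖χ‖ = 1 ∧ χ ^ 2 = (-1) ^ κ ∧ χ ^ 4 = 1 := by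
  have h2 : χ ^ 2 = (-1) ^ κ := by
    rw [hχe, neg_sq, mul_pow, hη, one_mul, ← pow_mul, mul_comm, pow_mul, Complex.I_sq]
  refine ⟨?_, h2, ?_⟩
  · rw [hχe, norm_neg, norm_mul, norm_eta hη, norm_pow, Complex.norm_I, one_pow, one_mul]
  · have : χ ^ 4 = (χ ^ 2) ^ 2 := by ring
    rw [this, h2, ← pow_mul, mul_comm, pow_mul]
    norm_num

/-- From a bound for `U(-1/y)` to a bound for `Fn`. -/
lemma Fn_le {k κ K : ℕ} {η : ℂ} {M : ℝ} {U : ℝ → ℂ} (h : Sys k κ η M U) (hη : η ^ 2 = 1)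
    (hκ : K ≤ κ) (ρ C c D N : ℝ) (hN : 0 ≤ N) (hρ : 1 ≤ ρ) (hc : C = c * N) (hc0 : 0 ≤ c)
    (hD : c / ρ ^ K ≤ D) {x w : ℝ} (hw : 0 < w) (hy : ρ ≤ |x + 1 / w|)
    (hU : ‖U (-1 / (x + 1 / w))‖ ≤ C) : ‖Fn U κ x w‖ ≤ D * N / w ^ κ := by
  have hy0 : x + 1 / w ≠ 0 := abs_pos.1 (by linarith)
  have hp : 0 < |x + 1 / w| := by linarith
  rw [norm_Fn U κ x w hw, h.norm_inv hη _ hy0]
  gcongr
  calc ‖U (-1 / (x + 1 / w))‖ / |x + 1 / w| ^ κ ≤ (c * N) / |x + 1 / w| ^ κ := by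
        gcongr
        rw [← hc]
        exact hU
    _ ≤ (c * N) / ρ ^ K := by
        gcongr
        calc ρ ^ K ≤ ρ ^ κ := pow_le_pow_right₀ hρ hκ
          _ ≤ _ := by gcongr
    _ = (c / ρ ^ K) * N := by ring
    _ ≤ D * N := by gcongr

lemma abs_neg_one_div (y : ℝ) : |(-1 / y)| = 1 / |y| := by
  rw [abs_div, abs_neg, abs_one]

end Tools

end Pool.Agent.KT97
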