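import Mathlib
import Pool.Agent.Lib_helper97.KT.Core

/-!
The contraction for `k = 3`, `κ ≥ 10` (MP_a65497_an).
-/

set_option autoImplicit false

open Set Filter Topology

namespace Pool.Agent.KT97

/-- The estimates carried through the iteration. -/
structure Bd3 (κ : ℕ) (U : ℝ → ℂ) (χ : ℂ) (N : ℝ) : Prop where
  da : ∀ w, 3 ≤ w → ‖Fn U κ (-1) w - χ * Fn U κ (-1) (w + 1)‖ ≤ N / w ^ κ
  dq : ∀ w, 3 ≤ w → ‖Fn U κ (-1 / 3) w - χ * Fn U κ (-1 / 3) (w + 1)‖ ≤ 4 * N / w ^ κ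
  dp : ∀ w, 3 ≤ w → ‖Fn U κ (1 / 3) w - χ * Fn U κ (1 / 3) (w + 1)‖ ≤ 33 / 10 * N / w ^ κ
  g : ∀ w, 3 ≤ w → ‖Fn U κ 3 w + Fn U κ (-3) w‖ ≤ 12 / 10000 * N / w ^ κ

/-- The standing assumptions of the iteration. -/
structure Pr3 (κ : ℕ) (U : ℝ → ℂ) (η χ χ' : ℂ) (M N : ℝ) : Prop where
  s : Sys 3 κ η M U
  hη : η ^ 2 = 1
  hκ : 10 ≤ κ
  hN : 0 ≤ N
  hχ : ‖χ‖ = 1
  hχ' : ‖χ'‖ = 1
  b : Bd3 κ U χ N
  b' : Bd3 κ (fun t => U (-t)) χ' N

section

variable {κ : ℕ} {η χ χ' : ℂ} {M N : ℝ} {U : ℝ → ℂ}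

lemma Pr3.k9 (H : Pr3 κ U η χ χ' M N) : (9 : ℝ) ≤ 1 * ((κ : ℝ) - 1) := by
  have : (10 : ℝ) ≤ κ := by exact_mod_cast H.hκ
  linarith

lemma Pr3.regA (H : Pr3 κ U η χ χ' M N) (δ : ℝ) (hδ : 0 < δ) (t : ℝ) (h1 : 2 / 3 ≤ |t|)
    (h2 : δ ≤ 1 - |t|) : ‖U t‖ ≤ N * (1 + 1 / (9 * δ)) := by
  have hk := H.hκ
  rcases le_total 0 t with h0 | h0
  · rw [abs_of_nonneg h0] at h1 h2
    have := U_of_chain (U := fun t => U (-t)) (fun t => H.s.bdd _) 9 (by norm_num) (by omega) χ'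
      H.hχ' 1 one_pos H.k9 3 (by norm_num) (-1) N H.hN H.b'.da δ hδ (-t) (by linarith) (by linarith)
    simpa only [neg_neg] using this
  · rw [abs_of_nonpos h0] at h1 h2
    exact U_of_chain H.s.bdd 9 (by norm_num) (by omega) χ
      H.hχ 1 one_pos H.k9 3 (by norm_num) (-1) N H.hN H.b.da δ hδ t (by linarith) (by linarith)

lemma Pr3.regP (H : Pr3 κ U η χ χ' M N) (δ : ℝ) (hδ : 0 < δ) (t : ℝ) (h1 : |t| ≤ 2 / 3)
    (h2 : δ ≤ |t| - 1 / 3) : ‖U t‖ ≤ 33 / 10 * N * (1 + 1 / (9 * δ)) := by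
  have hk := H.hκ
  have hN := H.hN
  rcases le_total 0 t with h0 | h0
  · rw [abs_of_nonneg h0] at h1 h2
    exact U_of_chain H.s.bdd 9 (by norm_num) (by omega) χ
      H.hχ 1 one_pos H.k9 3 (by norm_num) (1 / 3) _ (by positivity) H.b.dp δ hδ t (by linarith)
      (by linarith)
  · rw [abs_of_nonpos h0] at h1 h2
    have := U_of_chain (U := fun t => U (-t)) (fun t => H.s.bdd _) 9 (by norm_num) (by omega) χ'
      H.hχ' 1 one_pos H.k9 3 (by norm_num) (1 / 3) _ (by positivity) H.b'.dp δ hδ (-t)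
      (by linarith) (by linarith)
    simpa only [neg_neg] using this

lemma Pr3.regQ (H : Pr3 κ U η χ χ' M N) (δ : ℝ) (hδ : 0 < δ) (t : ℝ)
    (h2 : δ ≤ 1 / 3 - |t|) : ‖U t‖ ≤ 4 * N * (1 + 1 / (9 * δ)) := by
  have hk := H.hκ
  have hN := H.hN
  rcases le_total 0 t with h0 | h0
  · rw [abs_of_nonneg h0] at h2
    have := U_of_chain (U := fun t => U (-t)) (fun t => H.s.bdd _) 9 (by norm_num) (by omega) χ'
      H.hχ' 1 one_pos H.k9 3 (by norm_num) (-1 / 3) _ (by positivity) H.b'.dq δ hδ (-t)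
      (by linarith) (by linarith)
    simpa only [neg_neg] using this
  · rw [abs_of_nonpos h0] at h2
    exact U_of_chain H.s.bdd 9 (by norm_num) (by omega) χ
      H.hχ 1 one_pos H.k9 3 (by norm_num) (-1 / 3) _ (by positivity) H.b.dq δ hδ t (by linarith)
      (by linarith)

lemma Pr3.tail (H : Pr3 κ U η χ χ' M N) (α β γ : ℝ)
    (n : ℕ) (x y : ℝ) (hx1 : 1 ≤ |x|) (hxy : |x| ≤ 11 / 10 * |y|)
    (hy : 2 / 3 * (5 + n) ≤ |y|) :
    ‖((α * x ^ 2 + β * x + γ : ℝ) : ℂ) * U y‖ ≤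
      (|α| + |β| + |γ|) * (216 / 100000 * N) / ((n : ℝ) + 1) ^ 2 := by
  have hN := H.hN
  have hn : (0 : ℝ) ≤ n := Nat.cast_nonneg n
  have hy1 : 10 / 3 ≤ |y| := by linarith
  have hp : 0 < |y| := by linarith
  have hy0 : y ≠ 0 := abs_pos.1 hp
  have hU : ‖U y‖ ≤ 52 / 3 * N / |y| ^ κ := by
    rw [H.s.norm_inv H.hη y hy0]
    gcongr
    have e : 1 / |y| ≤ 3 / 10 := by rw [div_le_iff₀ hp]; linarith
    refine (H.regQ (1 / 30) (by norm_num) (-1 / y) (by rw [abs_neg_one_div]; linarith)).trans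
      (le_of_eq ?_)
    ring
  have hS : 0 ≤ |α| + |β| + |γ| := by positivity
  have hP : |α * x ^ 2 + β * x + γ| ≤ (|α| + |β| + |γ|) * |x| ^ 2 := by
    have h1 : |x| ≤ |x| ^ 2 := by nlinarith
    have h2 : 1 ≤ |x| ^ 2 := by nlinarith
    calc |α * x ^ 2 + β * x + γ| ≤ |α * x ^ 2| + |β * x| + |γ| := abs_add_three _ _ _
      _ = |α| * |x| ^ 2 + |β| * |x| + |γ| * 1 := by rw [abs_mul, abs_mul, abs_pow, mul_one]
      _ ≤ |α| * |x| ^ 2 + |β| * |x| ^ 2 + |γ| * |x| ^ 2 := by gcongr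
      _ = _ := by ring
  have hP2 : |α * x ^ 2 + β * x + γ| ≤ (|α| + |β| + |γ|) * (121 / 100 * |y| ^ 2) := by
    refine hP.trans ?_
    gcongr
    calc |x| ^ 2 ≤ (11 / 10 * |y|) ^ 2 := by gcongr
      _ = _ := by ring
  rw [norm_mul, Complex.norm_real, Real.norm_eq_abs]
  -- the power
  have hpow : (10 / 3) ^ 8 * (64 / 100 * ((n : ℝ) + 1) ^ 2) * |y| ^ 2 ≤ |y| ^ κ := by
    have h1 : 8 / 10 * ((n : ℝ) + 1) ≤ (1 + (n : ℝ) / 5) ^ 4 := by
      have := one_add_mul_le_pow (a := (n : ℝ) / 5) (by linarith [div_nonneg hn (by norm_num : (0:ℝ) ≤ 5)]) 4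
      push_cast at this
      linarith
    have h2 : 64 / 100 * ((n : ℝ) + 1) ^ 2 ≤ (1 + (n : ℝ) / 5) ^ 8 := by
      calc 64 / 100 * ((n : ℝ) + 1) ^ 2 = (8 / 10 * ((n : ℝ) + 1)) ^ 2 := by ring
        _ ≤ ((1 + (n : ℝ) / 5) ^ 4) ^ 2 := by gcongr
        _ = (1 + (n : ℝ) / 5) ^ 8 := by ring
    calc (10 / 3) ^ 8 * (64 / 100 * ((n : ℝ) + 1) ^ 2) * |y| ^ 2
        ≤ (10 / 3) ^ 8 * (1 + (n : ℝ) / 5) ^ 8 * |y| ^ 2 := by gcongr
      _ = (2 / 3 * (5 + n)) ^ 8 * |y| ^ 2 := by rw [← mul_pow]; congr 2; ring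
      _ ≤ |y| ^ 8 * |y| ^ 2 := by gcongr
      _ = |y| ^ 10 := by ring
      _ ≤ |y| ^ κ := pow_le_pow_right₀ (by linarith) H.hκ
  have hn1 : (0 : ℝ) < ((n : ℝ) + 1) ^ 2 := by positivity
  calc |α * x ^ 2 + β * x + γ| * ‖U y‖
      ≤ ((|α| + |β| + |γ|) * (121 / 100 * |y| ^ 2)) * (52 / 3 * N / |y| ^ κ) := by gcongr
    _ ≤ ((|α| + |β| + |γ|) * (121 / 100 * |y| ^ 2)) *
        (52 / 3 * N / ((10 / 3) ^ 8 * (64 / 100 * ((n : ℝ) + 1) ^ 2) * |y| ^ 2)) := by gcongr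
    _ = (|α| + |β| + |γ|) * ((121 / 100 * (52 / 3) / (10 / 3) ^ 8 / (64 / 100)) * N) /
        ((n : ℝ) + 1) ^ 2 := by field_simp
    _ ≤ (|α| + |β| + |γ|) * (216 / 100000 * N) / ((n : ℝ) + 1) ^ 2 := by
      have h5 : (121 / 100 * (52 / 3) / (10 / 3) ^ 8 / (64 / 100) : ℝ) * N ≤ 216 / 100000 * N :=
        mul_le_mul_of_nonneg_right (by norm_num) hN
      exact div_le_div_of_nonneg_right (mul_le_mul_of_nonneg_left h5 hS) hn1.le

/-- The split Poisson relation with the quadratic weight `α x² + β x + γ`. -/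
lemma Pr3.rel (H : Pr3 κ U η χ χ' M N) (α β γ : ℝ)
    (w : ℝ) (hw : 3 ≤ w) (P : ℝ → ℂ) (hP : ∀ x, P x = ((α * x ^ 2 + β * x + γ : ℝ) : ℂ)) :
    ∃ R : ℂ, ‖R‖ ≤ (|α| + |β| + |γ|) * (864 / 100000 * (N / w ^ κ)) ∧
      P (-1) * Fn U κ (-1) w + P (-1 / 3) * Fn U κ (-1 / 3) w + P (1 / 3) * Fn U κ (1 / 3) w +
      P 1 * Fn U κ 1 w + P (5 / 3) * Fn U κ (5 / 3) w + P (7 / 3) * Fn U κ (7 / 3) w +
      P 3 * Fn U κ 3 w + P (-5 / 3) * Fn U κ (-5 / 3) w + P (-7 / 3) * Fn U κ (-7 / 3) w +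
      P (-3) * Fn U κ (-3) w + R = 0 := by
  have hk := H.hκ
  have hN := H.hN
  have hwp : 0 < w := by linarith
  have hw1 : 0 < 1 / w := by positivity
  have hw3 : 1 / w ≤ 1 / 3 := by gcongr
  set f : ℤ → ℂ := fun m => P (-1 + 2 * m / 3) * U ((-1 + 1 / w) + 2 * m / 3) with hf
  have hfx : ∀ (m : ℤ) (x : ℝ), x = -1 + 2 * m / 3 → f m = P x * U (x + 1 / w) := by
    intro m x hx
    simp only [hf]
    rw [hx]
    congr 2
    ring
  obtain ⟨s1, s2⟩ := rel_poly (by norm_num) (by norm_num) H.s H.hη (by omega : 6 ≤ κ)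
    (fun i => if i = 0 then ((α - β + γ : ℝ) : ℂ) else if i = 1 then
      ((-4 * α / 3 + 2 * β / 3 : ℝ) : ℂ) else ((4 * α / 9 : ℝ) : ℂ)) (-1 + 1 / w)
  have e : ∀ m : ℤ, (∑ i ∈ Finset.range 3, (if i = 0 then ((α - β + γ : ℝ) : ℂ) else if i = 1 then
      ((-4 * α / 3 + 2 * β / 3 : ℝ) : ℂ) else ((4 * α / 9 : ℝ) : ℂ)) * (m : ℂ) ^ i) *
      U ((-1 + 1 / w) + 2 * m / (3 : ℕ)) = f m := by
    intro m
    simp only [hf, hP]
    simp only [Finset.sum_range_succ, Finset.sum_range_zero]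
    norm_num
    left
    ring
  simp_rw [e] at s1 s2
  obtain ⟨R, hR, hR2⟩ := split_zero f s1 s2 7 3 ((|α| + |β| + |γ|) * (216 / 100000 * N)) (by
    intro n
    rw [hfx _ (11 / 3 + 2 * n / 3) (by push_cast; ring), hP]
    have hn : (0 : ℝ) ≤ n := Nat.cast_nonneg n
    have h1 : |(11 / 3 + 2 * (n : ℝ) / 3)| = 11 / 3 + 2 * (n : ℝ) / 3 :=
      abs_of_nonneg (by positivity)
    have h2 : |(11 / 3 + 2 * (n : ℝ) / 3 + 1 / w)| = 11 / 3 + 2 * (n : ℝ) / 3 + 1 / w :=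
      abs_of_nonneg (by positivity)
    exact H.tail α β γ n _ _ (by rw [h1]; linarith)
      (by rw [h1, h2]; linarith) (by rw [h2]; linarith)) (by
    intro n
    rw [hfx _ (-(11 / 3 + 2 * n / 3)) (by push_cast; ring), hP]
    have hn : (0 : ℝ) ≤ n := Nat.cast_nonneg n
    have h1 : |(-(11 / 3 + 2 * (n : ℝ) / 3))| = 11 / 3 + 2 * (n : ℝ) / 3 := by
      rw [abs_neg]
      exact abs_of_nonneg (by positivity)
    have h2 : |(-(11 / 3 + 2 * (n : ℝ) / 3) + 1 / w)| = 11 / 3 + 2 * (n : ℝ) / 3 - 1 / w := by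
      rw [abs_of_nonpos (by linarith)]
      ring
    exact H.tail α β γ n _ _ (by rw [h1]; linarith)
      (by rw [h1, h2]; linarith) (by rw [h2]; linarith))
  refine ⟨R / (w : ℂ) ^ κ, ?_, ?_⟩
  · rw [norm_div, norm_pow, Complex.norm_real, Real.norm_eq_abs, abs_of_pos hwp]
    calc ‖R‖ / w ^ κ ≤ 4 * ((|α| + |β| + |γ|) * (216 / 100000 * N)) / w ^ κ := by gcongr
      _ = _ := by ring
  · simp only [Finset.sum_range_succ, Finset.sum_range_zero] at hR2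
    rw [hfx ((0 : ℕ) : ℤ) (-1) (by norm_num), hfx ((1 : ℕ) : ℤ) (-1 / 3) (by norm_num),
      hfx ((2 : ℕ) : ℤ) (1 / 3) (by norm_num), hfx ((3 : ℕ) : ℤ) 1 (by norm_num),
      hfx ((4 : ℕ) : ℤ) (5 / 3) (by norm_num), hfx ((5 : ℕ) : ℤ) (7 / 3) (by norm_num),
      hfx ((6 : ℕ) : ℤ) 3 (by norm_num), hfx (-(((0 : ℕ) : ℤ) + 1)) (-5 / 3) (by norm_num),
      hfx (-(((1 : ℕ) : ℤ) + 1)) (-7 / 3) (by norm_num),
      hfx (-(((2 : ℕ) : ℤ) + 1)) (-3) (by norm_num)] at hR2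
    simp only [Fn]
    linear_combination hR2 / (w : ℂ) ^ κ

/-- The three relations. -/
lemma Pr3.rels (H : Pr3 κ U η χ χ' M N)
    (hχe : χ = -(η * Complex.I ^ κ)) (w : ℝ) (hw : 3 ≤ w) :
    (∃ R : ℂ, ‖R‖ ≤ 108 / 10000 * (N / w ^ κ) ∧ Fn U κ (-1) w - χ * Fn U κ (-1) (w + 1) =
      ((-10 : ℝ) : ℂ) * (Fn U κ 3 w + Fn U κ (-3) w) -
      ((3 : ℝ) : ℂ) * (Fn U κ (5 / 3) w + Fn U κ (-5 / 3) w) -
      ((6 : ℝ) : ℂ) * (Fn U κ (7 / 3) w + Fn U κ (-7 / 3) w) - R) ∧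
    (∃ R : ℂ, ‖R‖ ≤ 1944 / 100000 * (N / w ^ κ) ∧ Fn U κ (-1 / 3) w + Fn U κ (1 / 3) w =
      ((9 : ℝ) : ℂ) * (Fn U κ 3 w + Fn U κ (-3) w) +
      ((2 : ℝ) : ℂ) * (Fn U κ (5 / 3) w + Fn U κ (-5 / 3) w) +
      ((5 : ℝ) : ℂ) * (Fn U κ (7 / 3) w + Fn U κ (-7 / 3) w) + R) ∧
    (∃ R : ℂ, ‖R‖ ≤ 3888 / 100000 * (N / w ^ κ) ∧ Fn U κ (1 / 3) w =
      ((3 : ℝ) : ℂ) * Fn U κ (-1) w + ((15 : ℝ) : ℂ) * Fn U κ 3 w + ((24 : ℝ) : ℂ) * Fn U κ (-3) w +
      ((3 : ℝ) : ℂ) * Fn U κ (5 / 3) w + ((8 : ℝ) : ℂ) * Fn U κ (-5 / 3) w +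
      ((8 : ℝ) : ℂ) * Fn U κ (7 / 3) w + ((15 : ℝ) : ℂ) * Fn U κ (-7 / 3) w + R) := by
  have hwp : 0 < w := by linarith
  have h1 : Fn U κ 1 w = -χ * Fn U κ (-1) (w + 1) := by
    rw [Fn_inv H.s 1 w one_ne_zero hwp.ne' (by positivity), hχe]
    norm_num
  refine ⟨?_, ?_, ?_⟩
  · obtain ⟨R, hR, e⟩ := H.rel 1 0 (-1 / 9) w hw
      (fun x => ((1 * x ^ 2 + 0 * x + -1 / 9 : ℝ) : ℂ)) (fun x => rfl)
    refine ⟨((9 / 8 : ℝ) : ℂ) * R, ?_, ?_⟩
    · refine (nmul (9 / 8) hR).trans (le_of_eq ?_)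
      rw [abs_one, abs_zero, show |(-1 / 9 : ℝ)| = 1 / 9 by norm_num [abs_of_neg],
        show |(9 / 8 : ℝ)| = 9 / 8 by norm_num]
      ring
    · rw [h1] at e
      push_cast at e ⊢
      linear_combination (9 / 8) * e
  · obtain ⟨R, hR, e⟩ := H.rel 1 0 (-1) w hw
      (fun x => ((1 * x ^ 2 + 0 * x + -1 : ℝ) : ℂ)) (fun x => rfl)
    refine ⟨((9 / 8 : ℝ) : ℂ) * R, ?_, ?_⟩
    · refine (nmul (9 / 8) hR).trans (le_of_eq ?_)
      rw [abs_one, abs_zero, abs_neg, abs_one, show |(9 / 8 : ℝ)| = 9 / 8 by norm_num]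
      ring
    · push_cast at e ⊢
      linear_combination -(9 / 8) * e
  · obtain ⟨R, hR, e⟩ := H.rel 1 (-2 / 3) (-1 / 3) w hw
      (fun x => ((1 * x ^ 2 + -2 / 3 * x + -1 / 3 : ℝ) : ℂ)) (fun x => rfl)
    refine ⟨((9 / 4 : ℝ) : ℂ) * R, ?_, ?_⟩
    · refine (nmul (9 / 4) hR).trans (le_of_eq ?_)
      rw [abs_one, show |(-2 / 3 : ℝ)| = 2 / 3 by norm_num [abs_of_neg],
        show |(-1 / 3 : ℝ)| = 1 / 3 by norm_num [abs_of_neg], show |(9 / 4 : ℝ)| = 9 / 4 by norm_num]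
      ring
    · push_cast at e ⊢
      linear_combination -(9 / 4) * e

/-- Bounds at the points `±5/3`, `±7/3`. -/
lemma Pr3.pts (H : Pr3 κ U η χ χ' M N) (w : ℝ) (hw : 3 ≤ w) :
    ‖Fn U κ (5 / 3) w‖ ≤ 333 / 10000 * N / w ^ κ ∧ ‖Fn U κ (-5 / 3) w‖ ≤ 815 / 10000 * N / w ^ κ ∧
    ‖Fn U κ (7 / 3) w‖ ≤ 254 / 100000 * N / w ^ κ ∧
    ‖Fn U κ (-7 / 3) w‖ ≤ 7 / 1000 * N / w ^ κ := by
  have hN := H.hN
  have hwp : 0 < w := by linarith
  have hw1 : 0 < 1 / w := by positivity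
  have hw3 : 1 / w ≤ 1 / 3 := by gcongr
  have a1 : |(5 / 3 + 1 / w)| = 5 / 3 + 1 / w := abs_of_pos (by linarith)
  have a2 : |(-5 / 3 + 1 / w)| = 5 / 3 - 1 / w := by rw [abs_of_neg (by linarith)]; ring
  have a3 : |(7 / 3 + 1 / w)| = 7 / 3 + 1 / w := abs_of_pos (by linarith)
  have a4 : |(-7 / 3 + 1 / w)| = 7 / 3 - 1 / w := by rw [abs_of_neg (by linarith)]; ring
  refine ⟨?_, ?_, ?_, ?_⟩
  · refine Fn_le H.s H.hη H.hκ (5 / 3) (33 / 10 * N * (1 + 1 / (9 * (1 / 6)))) (11 / 2)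
      (333 / 10000) N hN (by norm_num) (by ring) (by norm_num) (by norm_num) hwp
      (by rw [a1]; linarith) ?_
    refine H.regP (1 / 6) (by norm_num) _ ?_ ?_
    · rw [abs_neg_one_div, a1, div_le_iff₀ (by linarith)]
      linarith
    · rw [abs_neg_one_div, a1]
      have : 1 / 2 ≤ 1 / (5 / 3 + 1 / w) := by
        rw [le_div_iff₀ (by linarith)]
        linarith
      linarith
  · rcases le_total (5 / 3 - 1 / w) (3 / 2) with h | h
    · refine Fn_le H.s H.hη H.hκ (4 / 3) (N * (1 + 1 / (9 * (1 / 4)))) (13 / 9)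
        (815 / 10000) N hN (by norm_num) (by ring) (by norm_num) (by norm_num) hwp
        (by rw [a2]; linarith) ?_
      refine H.regA (1 / 4) (by norm_num) _ ?_ ?_
      · rw [abs_neg_one_div, a2, le_div_iff₀ (by linarith)]
        linarith
      · rw [abs_neg_one_div, a2]
        have : 1 / (5 / 3 - 1 / w) ≤ 3 / 4 := by
          rw [div_le_iff₀ (by linarith)]
          linarith
        linarith
    · refine Fn_le H.s H.hη H.hκ (3 / 2) (33 / 10 * N * (1 + 1 / (9 * (4 / 15)))) (187 / 40)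
        (815 / 10000) N hN (by norm_num) (by ring) (by norm_num) (by norm_num) hwp
        (by rw [a2]; linarith) ?_
      refine H.regP (4 / 15) (by norm_num) _ ?_ ?_
      · rw [abs_neg_one_div, a2, div_le_iff₀ (by linarith)]
        linarith
      · rw [abs_neg_one_div, a2]
        have : 3 / 5 ≤ 1 / (5 / 3 - 1 / w) := by
          rw [le_div_iff₀ (by linarith)]
          linarith
        linarith
  · refine Fn_le H.s H.hη H.hκ (7 / 3) (33 / 10 * N * (1 + 1 / (9 * (1 / 24)))) (121 / 10)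
      (254 / 100000) N hN (by norm_num) (by ring) (by norm_num) (by norm_num) hwp
      (by rw [a3]; linarith) ?_
    refine H.regP (1 / 24) (by norm_num) _ ?_ ?_
    · rw [abs_neg_one_div, a3, div_le_iff₀ (by linarith)]
      linarith
    · rw [abs_neg_one_div, a3]
      have : 3 / 8 ≤ 1 / (7 / 3 + 1 / w) := by
        rw [le_div_iff₀ (by linarith)]
        linarith
      linarith
  · refine Fn_le H.s H.hη H.hκ 2 (33 / 10 * N * (1 + 1 / (9 * (2 / 21)))) (143 / 20)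
      (7 / 1000) N hN (by norm_num) (by ring) (by norm_num) (by norm_num) hwp
      (by rw [a4]; linarith) ?_
    refine H.regP (2 / 21) (by norm_num) _ ?_ ?_
    · rw [abs_neg_one_div, a4, div_le_iff₀ (by linarith)]
      linarith
    · rw [abs_neg_one_div, a4]
      have : 3 / 7 ≤ 1 / (7 / 3 - 1 / w) := by
        rw [le_div_iff₀ (by linarith)]
        linarith
      linarith

lemma Pr3.step (H : Pr3 κ U η χ χ' M N) (hχe : χ = -(η * Complex.I ^ κ)) :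
    Bd3 κ U χ (24 / 25 * N) := by
  have hN := H.hN
  have hκ := H.hκ
  have hb := H.b
  obtain ⟨hχ, hχ2, hχ4⟩ := chi_facts H.hη hχe
  have hχ9 : χ ^ 9 = χ := by
    calc χ ^ 9 = (χ ^ 4) ^ 2 * χ := by ring
      _ = χ := by rw [hχ4]; ring
  have P := H.pts
  have Rel := H.rels hχe
  have hX : ∀ w : ℝ, 3 ≤ w → 0 ≤ N / w ^ κ := by
    intro w hw
    have : 0 < w := by linarith
    positivity
  have hXm : ∀ w r : ℝ, 3 ≤ w → 0 ≤ r → N / (w + r) ^ κ ≤ N / w ^ κ := by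
    intro w r hw hr
    have : 0 < w := by linarith
    gcongr
    linarith
  -- D_a
  have hDa : ∀ w, 3 ≤ w → ‖Fn U κ (-1) w - χ * Fn U κ (-1) (w + 1)‖ ≤
      42444 / 100000 * (N / w ^ κ) := by
    intro w hw
    obtain ⟨⟨R, hR, e⟩, -, -⟩ := Rel w hw
    obtain ⟨p1, p2, p3, p4⟩ := P w hw
    rw [e]
    refine (nsub (nsub (nsub (nmul _ (hb.g w hw)) (nmul _ (nadd p1 p2))) (nmul _ (nadd p3 p4)))
      hR).trans (le_of_eq ?_)
    rw [show |(-10 : ℝ)| = 10 by norm_num, show |(3 : ℝ)| = 3 by norm_num,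
      show |(6 : ℝ)| = 6 by norm_num]
    ring
  -- E
  have hE : ∀ w, 3 ≤ w → ‖Fn U κ (-1 / 3) w + Fn U κ (1 / 3) w‖ ≤
      30754 / 100000 * (N / w ^ κ) := by
    intro w hw
    obtain ⟨-, ⟨R, hR, e⟩, -⟩ := Rel w hw
    obtain ⟨p1, p2, p3, p4⟩ := P w hw
    rw [e]
    refine (nadd (nadd (nadd (nmul _ (hb.g w hw)) (nmul _ (nadd p1 p2))) (nmul _ (nadd p3 p4)))
      hR).trans (le_of_eq ?_)
    rw [show |(9 : ℝ)| = 9 by norm_num, show |(2 : ℝ)| = 2 by norm_num,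
      show |(5 : ℝ)| = 5 by norm_num]
    ring
  -- inversions
  have i3 : ∀ w, 3 ≤ w → Fn U κ 3 w = -χ * 3 ^ κ * Fn U κ (-1 / 3) (9 * w + 3) := by
    intro w hw
    rw [Fn_inv H.s 3 w (by norm_num) (by positivity) (by positivity), hχe, mul_pow]
    have : (3 : ℝ) ^ 2 * w + 3 = 9 * w + 3 := by ring
    rw [this]
    push_cast
    ring
  have im3 : ∀ w, 3 ≤ w → Fn U κ (-3) w = -χ * (-3) ^ κ * Fn U κ (1 / 3) (9 * w - 3) := by
    intro w hw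
    rw [Fn_inv H.s (-3) w (by norm_num) (by positivity) (by linarith), hχe, mul_pow]
    have : (-3 : ℝ) ^ 2 * w + -3 = 9 * w - 3 := by ring
    rw [this]
    have h2 : (-1 / -3 : ℝ) = 1 / 3 := by norm_num
    rw [h2]
    push_cast
    ring
  have n3 : ‖(3 : ℂ) ^ κ‖ = 3 ^ κ := by rw [norm_pow]; norm_num
  have nm3 : ‖(-3 : ℂ) ^ κ‖ = 3 ^ κ := by rw [norm_pow]; norm_num
  -- shifts of g
  have hΔ1 : ∀ w, 3 ≤ w → ‖Fn U κ 3 w - χ * Fn U κ 3 (w + 1)‖ ≤ 61 / 100000 * (N / w ^ κ) := by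
    intro w hw
    have hwp : 0 < w := by linarith
    have e : Fn U κ 3 w - χ * Fn U κ 3 (w + 1) = -χ * (3 ^ κ *
        (Fn U κ (-1 / 3) (9 * w + 3) - χ ^ 9 * Fn U κ (-1 / 3) (9 * w + 3 + (9 : ℕ) * 1))) := by
      rw [i3 w hw, i3 (w + 1) (by linarith), hχ9]
      have : 9 * (w + 1) + 3 = 9 * w + 3 + (9 : ℕ) * 1 := by push_cast; ring
      rw [this]
      ring
    rw [e, norm_mul, norm_neg, hχ, one_mul, norm_mul, n3]
    have t := tele_le κ (Fn U κ (-1 / 3)) χ hχ 1 (by norm_num) 3 (by norm_num) (4 * N)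
      (by positivity) hb.dq 9 (9 * w + 3) (by linarith)
    calc 3 ^ κ * ‖Fn U κ (-1 / 3) (9 * w + 3) - χ ^ 9 * Fn U κ (-1 / 3) (9 * w + 3 + (9 : ℕ) * 1)‖
        ≤ 3 ^ κ * ((9 : ℕ) * (4 * N / (9 * w + 3) ^ κ)) := by gcongr
      _ = 3 ^ κ * ((36 * N) / (9 * w + 3) ^ κ) := by push_cast; ring
      _ ≤ 36 * N / 3 ^ 10 / w ^ κ := scale_le hκ (by positivity) hwp (by norm_num) (by norm_num)
          (by linarith)
      _ = (36 / 3 ^ 10) * (N / w ^ κ) := by ring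
      _ ≤ _ := mul_le_mul_of_nonneg_right (by norm_num) (hX w hw)
  have hΔ2 : ∀ w, 3 ≤ w → ‖Fn U κ (-3) w - χ * Fn U κ (-3) (w + 1)‖ ≤
      164 / 100000 * (N / w ^ κ) := by
    intro w hw
    have hwp : 0 < w := by linarith
    have e : Fn U κ (-3) w - χ * Fn U κ (-3) (w + 1) = -χ * ((-3) ^ κ *
        (Fn U κ (1 / 3) (9 * w - 3) - χ ^ 9 * Fn U κ (1 / 3) (9 * w - 3 + (9 : ℕ) * 1))) := by
      rw [im3 w hw, im3 (w + 1) (by linarith), hχ9]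
      have : 9 * (w + 1) - 3 = 9 * w - 3 + (9 : ℕ) * 1 := by push_cast; ring
      rw [this]
      ring
    rw [e, norm_mul, norm_neg, hχ, one_mul, norm_mul, nm3]
    have t := tele_le κ (Fn U κ (1 / 3)) χ hχ 1 (by norm_num) 3 (by norm_num) (33 / 10 * N)
      (by positivity) hb.dp 9 (9 * w - 3) (by linarith)
    calc 3 ^ κ * ‖Fn U κ (1 / 3) (9 * w - 3) - χ ^ 9 * Fn U κ (1 / 3) (9 * w - 3 + (9 : ℕ) * 1)‖
        ≤ 3 ^ κ * ((9 : ℕ) * (33 / 10 * N / (9 * w - 3) ^ κ)) := by gcongr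
      _ = 3 ^ κ * ((297 / 10 * N) / (9 * w - 3) ^ κ) := by push_cast; ring
      _ ≤ 297 / 10 * N / (8 / 3) ^ 10 / w ^ κ := scale_le hκ (by positivity) hwp (by norm_num)
          (by norm_num) (by linarith)
      _ = (297 / 10 / (8 / 3) ^ 10) * (N / w ^ κ) := by ring
      _ ≤ _ := mul_le_mul_of_nonneg_right (by norm_num) (hX w hw)
  -- D_p
  have hDp : ∀ w, 3 ≤ w → ‖Fn U κ (1 / 3) w - χ * Fn U κ (1 / 3) (w + 1)‖ ≤
      315403 / 100000 * (N / w ^ κ) := by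
    intro w hw
    obtain ⟨-, -, ⟨R, hR, e⟩⟩ := Rel w hw
    obtain ⟨-, -, ⟨R', hR', e'⟩⟩ := Rel (w + 1) (by linarith)
    have q1 := nshift hχ (C := 333 / 10000 * N) (by positivity) (by norm_num)
      (fun w hw => (P w hw).1) 1 (by norm_num) w hw
    have q2 := nshift hχ (C := 815 / 10000 * N) (by positivity) (by norm_num)
      (fun w hw => (P w hw).2.1) 1 (by norm_num) w hw
    have q3 := nshift hχ (C := 254 / 100000 * N) (by positivity) (by norm_num)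
      (fun w hw => (P w hw).2.2.1) 1 (by norm_num) w hw
    have q4 := nshift hχ (C := 7 / 1000 * N) (by positivity) (by norm_num)
      (fun w hw => (P w hw).2.2.2) 1 (by norm_num) w hw
    have hR'' : ‖χ * R'‖ ≤ 3888 / 100000 * (N / w ^ κ) := by
      rw [norm_mul, hχ, one_mul]
      refine hR'.trans ?_
      have := hXm w 1 hw (by norm_num)
      linarith
    have e2 : Fn U κ (1 / 3) w - χ * Fn U κ (1 / 3) (w + 1) =
        ((3 : ℝ) : ℂ) * (Fn U κ (-1) w - χ * Fn U κ (-1) (w + 1)) +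
        ((15 : ℝ) : ℂ) * (Fn U κ 3 w - χ * Fn U κ 3 (w + 1)) +
        ((24 : ℝ) : ℂ) * (Fn U κ (-3) w - χ * Fn U κ (-3) (w + 1)) +
        ((3 : ℝ) : ℂ) * (Fn U κ (5 / 3) w - χ * Fn U κ (5 / 3) (w + 1)) +
        ((8 : ℝ) : ℂ) * (Fn U κ (-5 / 3) w - χ * Fn U κ (-5 / 3) (w + 1)) +
        ((8 : ℝ) : ℂ) * (Fn U κ (7 / 3) w - χ * Fn U κ (7 / 3) (w + 1)) +
        ((15 : ℝ) : ℂ) * (Fn U κ (-7 / 3) w - χ * Fn U κ (-7 / 3) (w + 1)) + R - χ * R' := by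
      rw [e, e']
      ring
    rw [e2]
    refine (nsub (nadd (nadd (nadd (nadd (nadd (nadd (nadd (nmul _ (hDa w hw)) (nmul _ (hΔ1 w hw)))
      (nmul _ (hΔ2 w hw))) (nmul _ q1)) (nmul _ q2)) (nmul _ q3)) (nmul _ q4)) hR) hR'').trans
      (le_of_eq ?_)
    rw [show |(3 : ℝ)| = 3 by norm_num, show |(15 : ℝ)| = 15 by norm_num,
      show |(24 : ℝ)| = 24 by norm_num, show |(8 : ℝ)| = 8 by norm_num]
    ring
  -- D_q
  have hDq : ∀ w, 3 ≤ w → ‖Fn U κ (-1 / 3) w - χ * Fn U κ (-1 / 3) (w + 1)‖ ≤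
      376911 / 100000 * (N / w ^ κ) := by
    intro w hw
    have q1 := nshift hχ (C := 30754 / 100000 * N) (by positivity) (by norm_num)
      (fun w hw => (hE w hw).trans (le_of_eq (by ring))) 1 (by norm_num) w hw
    have e2 : Fn U κ (-1 / 3) w - χ * Fn U κ (-1 / 3) (w + 1) =
        (Fn U κ (-1 / 3) w + Fn U κ (1 / 3) w -
          χ * (Fn U κ (-1 / 3) (w + 1) + Fn U κ (1 / 3) (w + 1))) -
        (Fn U κ (1 / 3) w - χ * Fn U κ (1 / 3) (w + 1)) := by ring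
    rw [e2]
    refine (nsub q1 (hDp w hw)).trans (le_of_eq ?_)
    ring
  refine ⟨?_, ?_, ?_, ?_⟩
  · intro w hw
    refine (hDa w hw).trans ?_
    have := hX w hw
    have x : 24 / 25 * N / w ^ κ = 24 / 25 * (N / w ^ κ) := by ring
    rw [x]
    linarith
  · intro w hw
    refine (hDq w hw).trans ?_
    have := hX w hw
    have x : 4 * (24 / 25 * N) / w ^ κ = 96 / 25 * (N / w ^ κ) := by ring
    rw [x]
    linarith
  · intro w hw
    refine (hDp w hw).trans ?_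
    have := hX w hw
    have x : 33 / 10 * (24 / 25 * N) / w ^ κ = 3168 / 1000 * (N / w ^ κ) := by ring
    rw [x]
    linarith
  · intro w hw
    have hwp : 0 < w := by linarith
    have t := tele_le κ (Fn U κ (1 / 3)) χ hχ 1 (by norm_num) 3 (by norm_num) (33 / 10 * N)
      (by positivity) hb.dp 6 (9 * w - 3) (by linarith)
    have hE' := hE (9 * w + 3) (by linarith)
    have hm3 : (-3 : ℂ) ^ κ = χ ^ 2 * 3 ^ κ := by
      rw [hχ2, ← mul_pow]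
      norm_num
    have hχ6 : χ ^ 6 = χ ^ 2 := by
      calc χ ^ 6 = χ ^ 4 * χ ^ 2 := by ring
        _ = χ ^ 2 := by rw [hχ4, one_mul]
    have e : Fn U κ 3 w + Fn U κ (-3) w = -χ * (3 ^ κ *
        ((Fn U κ (-1 / 3) (9 * w + 3) + Fn U κ (1 / 3) (9 * w + 3)) +
        χ ^ 2 * (Fn U κ (1 / 3) (9 * w - 3) - χ ^ 6 * Fn U κ (1 / 3) (9 * w - 3 + (6 : ℕ) * 1)))) := by
      rw [i3 w hw, im3 w hw, hm3, hχ6]
      have : 9 * w - 3 + (6 : ℕ) * 1 = 9 * w + 3 := by push_cast; ring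
      rw [this]
      linear_combination (-χ * 3 ^ κ * Fn U κ (1 / 3) (9 * w + 3)) * hχ4
    rw [e, norm_mul, norm_neg, hχ, one_mul, norm_mul, n3]
    have nχ2 : ‖χ ^ 2‖ = 1 := by rw [norm_pow, hχ, one_pow]
    calc 3 ^ κ * ‖(Fn U κ (-1 / 3) (9 * w + 3) + Fn U κ (1 / 3) (9 * w + 3)) +
        χ ^ 2 * (Fn U κ (1 / 3) (9 * w - 3) - χ ^ 6 * Fn U κ (1 / 3) (9 * w - 3 + (6 : ℕ) * 1))‖
        ≤ 3 ^ κ * (30754 / 100000 * (N / (9 * w + 3) ^ κ) +
          (6 : ℕ) * (33 / 10 * N / (9 * w - 3) ^ κ)) := by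
          gcongr
          refine nadd hE' ?_
          rw [norm_mul, nχ2, one_mul]
          exact t
      _ = 3 ^ κ * ((30754 / 100000 * N) / (9 * w + 3) ^ κ) +
          3 ^ κ * ((198 / 10 * N) / (9 * w - 3) ^ κ) := by
          push_cast; ring
      _ ≤ 30754 / 100000 * N / 3 ^ 10 / w ^ κ + 198 / 10 * N / (8 / 3) ^ 10 / w ^ κ :=
          add_le_add (scale_le hκ (by positivity) hwp (by norm_num) (by norm_num) (by linarith))
            (scale_le hκ (by positivity) hwp (by norm_num) (by norm_num) (by linarith))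
      _ = (30754 / 100000 / 3 ^ 10 + 198 / 10 / (8 / 3) ^ 10) * (N / w ^ κ) := by ring
      _ ≤ (12 / 10000 * (24 / 25)) * (N / w ^ κ) :=
          mul_le_mul_of_nonneg_right (by norm_num) (hX w hw)
      _ = _ := by ring

lemma base3 (hM : ∀ t, ‖U t‖ ≤ M) (hχ : ‖χ‖ = 1) : Bd3 κ U χ (2000 * M) := by
  have hM0 : 0 ≤ M := (norm_nonneg _).trans (hM 0)
  have hF : ∀ x w : ℝ, 3 ≤ w → ‖Fn U κ x w‖ ≤ M / w ^ κ := by
    intro x w hw
    have hwp : 0 < w := by linarith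
    rw [norm_Fn U κ x w hwp]
    gcongr
    exact hM _
  have hX : ∀ w : ℝ, 3 ≤ w → 0 ≤ M / w ^ κ := by
    intro w hw
    have : 0 < w := by linarith
    positivity
  refine ⟨?_, ?_, ?_, ?_⟩
  · intro w hw
    refine (nshift hχ hM0 (by norm_num) (hF (-1)) 1 (by norm_num) w hw).trans ?_
    have x : 2000 * M / w ^ κ = 2000 * (M / w ^ κ) := by ring
    rw [x]
    linarith [hX w hw]
  · intro w hw
    refine (nshift hχ hM0 (by norm_num) (hF (-1 / 3)) 1 (by norm_num) w hw).trans ?_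
    have x : 4 * (2000 * M) / w ^ κ = 8000 * (M / w ^ κ) := by ring
    rw [x]
    linarith [hX w hw]
  · intro w hw
    refine (nshift hχ hM0 (by norm_num) (hF (1 / 3)) 1 (by norm_num) w hw).trans ?_
    have x : 33 / 10 * (2000 * M) / w ^ κ = 6600 * (M / w ^ κ) := by ring
    rw [x]
    linarith [hX w hw]
  · intro w hw
    refine (nadd (hF 3 w hw) (hF (-3) w hw)).trans ?_
    have x : 12 / 10000 * (2000 * M) / w ^ κ = 24 / 10 * (M / w ^ κ) := by ring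
    rw [x]
    linarith [hX w hw]

theorem zero3 (h : Sys 3 κ η M U) (hη : η ^ 2 = 1) (hκ : 10 ≤ κ) (t : ℝ) : U t = 0 := by
  have hM0 : 0 ≤ M := h.M_nonneg
  set χ0 : ℂ := -(η * Complex.I ^ κ) with hχ0
  set χ1 : ℂ := -(η * (-1) ^ κ * Complex.I ^ κ) with hχ1
  have hr := h.refl
  have hη' : (η * (-1) ^ κ) ^ 2 = 1 := by
    rw [mul_pow, hη, one_mul, ← pow_mul, mul_comm, pow_mul]
    norm_num
  have hn0 : ‖χ0‖ = 1 := (chi_facts hη hχ0).1
  have hn1 : ‖χ1‖ = 1 := (chi_facts hη' hχ1).1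
  have hrr : (fun t => (fun t => U (-t)) (-t)) = U := by
    funext t
    simp
  have H : ∀ n : ℕ, Bd3 κ U χ0 ((24 / 25) ^ n * (2000 * M)) ∧
      Bd3 κ (fun t => U (-t)) χ1 ((24 / 25) ^ n * (2000 * M)) := by
    intro n
    induction n with
    | zero =>
      rw [pow_zero, one_mul]
      exact ⟨base3 h.bdd hn0, base3 hr.bdd hn1⟩
    | succ n ih =>
      have hN : 0 ≤ (24 / 25 : ℝ) ^ n * (2000 * M) := by positivity
      have e : (24 / 25 : ℝ) ^ (n + 1) * (2000 * M) = 24 / 25 * ((24 / 25) ^ n * (2000 * M)) := by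
        rw [pow_succ]; ring
      rw [e]
      have P1 : Pr3 κ U η χ0 χ1 M ((24 / 25) ^ n * (2000 * M)) :=
        ⟨h, hη, hκ, hN, hn0, hn1, ih.1, ih.2⟩
      have P2 : Pr3 κ (fun t => U (-t)) (η * (-1) ^ κ) χ1 χ0 M ((24 / 25) ^ n * (2000 * M)) :=
        ⟨hr, hη', hκ, hN, hn1, hn0, ih.2, by rw [hrr]; exact ih.1⟩
      exact ⟨P1.step hχ0, P2.step hχ1⟩
  -- zero inside
  have hin : ∀ t : ℝ, |t| < 1 → |t| ≠ 1 / 3 → U t = 0 := by
    intro t h1 h2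
    obtain ⟨C, hC⟩ : ∃ C : ℝ, ∀ n : ℕ, ‖U t‖ ≤ (24 / 25) ^ n * C := by
      have P : ∀ n : ℕ, Pr3 κ U η χ0 χ1 M ((24 / 25) ^ n * (2000 * M)) := fun n =>
        ⟨h, hη, hκ, by positivity, hn0, hn1, (H n).1, (H n).2⟩
      rcases lt_or_gt_of_ne h2 with h3 | h3
      · refine ⟨4 * (2000 * M) * (1 + 1 / (9 * (1 / 3 - |t|))), fun n => ?_⟩
        exact ((P n).regQ (1 / 3 - |t|) (by linarith) t le_rfl).trans (le_of_eq (by ring))
      · rcases le_total |t| (2 / 3) with h4 | h4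
        · refine ⟨33 / 10 * (2000 * M) * (1 + 1 / (9 * (|t| - 1 / 3))), fun n => ?_⟩
          exact ((P n).regP (|t| - 1 / 3) (by linarith) t h4 le_rfl).trans (le_of_eq (by ring))
        · refine ⟨(2000 * M) * (1 + 1 / (9 * (1 - |t|))), fun n => ?_⟩
          exact ((P n).regA (1 - |t|) (by linarith) t h4 le_rfl).trans (le_of_eq (by ring))
    have hlim : Tendsto (fun n : ℕ => (24 / 25 : ℝ) ^ n * C) atTop (𝓝 (0 * C)) :=
      (tendsto_pow_atTop_nhds_zero_of_lt_one (by norm_num) (by norm_num)).mul_const _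
    rw [zero_mul] at hlim
    have := ge_of_tendsto hlim (Eventually.of_forall hC)
    exact norm_le_zero_iff.1 this
  have hout : ∀ t : ℝ, 1 < |t| → |t| ≠ 3 → U t = 0 := by
    intro t h1 h2
    have ht : t ≠ 0 := by
      rintro rfl
      simp at h1
      linarith
    have hp : 0 < |t| := abs_pos.2 ht
    have h3 : U (-1 / t) = 0 := by
      apply hin
      · rw [abs_neg_one_div, div_lt_one hp]; exact h1
      · rw [abs_neg_one_div]
        intro h4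
        apply h2
        field_simp at h4
        linarith
    have := h.norm_inv hη t ht
    rw [h3, norm_zero, zero_div] at this
    exact norm_eq_zero.1 this
  have hfin : ({1, -1, 1 / 3, -(1 / 3), 3, -3} : Set ℝ).Finite := by
    simp
  have hd : Dense ({1, -1, 1 / 3, -(1 / 3), 3, -3} : Set ℝ)ᶜ := hfin.countable.dense_compl ℝ
  have hext := Continuous.ext_on hd h.cont (continuous_const (y := (0 : ℂ))) (fun t ht => by
    simp only [mem_compl_iff, mem_insert_iff, mem_singleton_iff, not_or] at ht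
    obtain ⟨a1, a2, a3, a4, a5, a6⟩ := ht
    have abs_ne : ∀ c : ℝ, 0 ≤ c → t ≠ c → t ≠ -c → |t| ≠ c := by
      intro c hc h1 h2 h3
      rcases abs_eq hc |>.1 h3 with h4 | h4
      · exact h1 h4
      · exact h2 h4
    rcases lt_or_gt_of_ne (abs_ne 1 (by norm_num) a1 a2) with h1 | h1
    · exact hin t h1 (abs_ne (1 / 3) (by norm_num) a3 a4)
    · exact hout t h1 (abs_ne 3 (by norm_num) a5 a6))
  exact congrFun hext t

end

end Pool.Agent.KT97
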