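import Mathlib
import Pool.Agent.Lib_helper97.KT.Core

/-!
The contraction for `k = 4`, `κ ≥ 16` even (MP_a65497_an).
-/

set_option autoImplicit false

open Set Filter Topology

namespace Pool.Agent.KT97

/-- The estimates carried through the iteration. -/
structure Bd4 (κ : ℕ) (U : ℝ → ℂ) (c : ℂ) (N : ℝ) : Prop where
  da : ∀ w, 4 ≤ w → ‖Fn U κ (-1) w - c * Fn U κ (-1) (w + 1)‖ ≤ N / w ^ κ
  dq : ∀ w, 4 ≤ w → ‖Fn U κ (-1 / 2) w - 1 * Fn U κ (-1 / 2) (w + 2)‖ ≤ 36 / 10 * N / w ^ κ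
  dz : ∀ w, 4 ≤ w → ‖Fn U κ 0 w - 1 * Fn U κ 0 (w + 2)‖ ≤ 45 / 10 * N / w ^ κ
  dp : ∀ w, 4 ≤ w → ‖Fn U κ (1 / 2) w - 1 * Fn U κ (1 / 2) (w + 2)‖ ≤ 3 * N / w ^ κ
  g : ∀ w, 4 ≤ w → ‖Fn U κ 2 w - Fn U κ (-2) w‖ ≤ 1 / 1000 * N / w ^ κ

/-- The standing assumptions of the iteration. -/
structure Pr4 (κ : ℕ) (U : ℝ → ℂ) (η c : ℂ) (M N : ℝ) : Prop where
  s : Sys 4 κ η M U
  hη : η ^ 2 = 1
  hκ : 16 ≤ κ
  hev : Even κ
  hN : 0 ≤ N
  hc : c = η * Complex.I ^ κ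
  b : Bd4 κ U c N
  b' : Bd4 κ (fun t => U (-t)) c N

section

variable {κ : ℕ} {η c : ℂ} {M N : ℝ} {U : ℝ → ℂ}

lemma c_facts (hη : η ^ 2 = 1) (hev : Even κ) (hc : c = η * Complex.I ^ κ) :
    c ^ 2 = 1 ∧ ‖c‖ = 1 := by
  have h2 : c ^ 2 = 1 := by
    rw [hc, mul_pow, hη, one_mul, ← pow_mul, mul_comm, pow_mul, Complex.I_sq, hev.neg_one_pow]
  refine ⟨h2, ?_⟩
  have : ‖c‖ ^ 2 = 1 := by rw [← norm_pow, h2, norm_one]
  nlinarith [norm_nonneg c]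

lemma Pr4.k15 (H : Pr4 κ U η c M N) : (15 : ℝ) ≤ 1 * ((κ : ℝ) - 1) := by
  have : (16 : ℝ) ≤ κ := by exact_mod_cast H.hκ
  linarith

lemma Pr4.k30 (H : Pr4 κ U η c M N) : (30 : ℝ) ≤ 2 * ((κ : ℝ) - 1) := by
  have := H.k15
  linarith

lemma Pr4.nc (H : Pr4 κ U η c M N) : ‖c‖ = 1 := (c_facts H.hη H.hev H.hc).2

lemma Pr4.regA (H : Pr4 κ U η c M N) (δ : ℝ) (hδ : 0 < δ) (t : ℝ) (h1 : 3 / 4 ≤ |t|)
    (h2 : δ ≤ 1 - |t|) : ‖U t‖ ≤ N * (1 + 1 / (15 * δ)) := by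
  have hk := H.hκ
  rcases le_total 0 t with h0 | h0
  · rw [abs_of_nonneg h0] at h1 h2
    have := U_of_chain (U := fun t => U (-t)) (fun t => H.s.bdd _) 15 (by norm_num) (by omega) c
      H.nc 1 one_pos H.k15 4 (by norm_num) (-1) N H.hN H.b'.da δ hδ (-t) (by linarith) (by linarith)
    simpa only [neg_neg] using this
  · rw [abs_of_nonpos h0] at h1 h2
    exact U_of_chain H.s.bdd 15 (by norm_num) (by omega) c
      H.nc 1 one_pos H.k15 4 (by norm_num) (-1) N H.hN H.b.da δ hδ t (by linarith) (by linarith)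

lemma Pr4.regP (H : Pr4 κ U η c M N) (δ : ℝ) (hδ : 0 < δ) (t : ℝ) (h1 : |t| ≤ 3 / 4)
    (h2 : δ ≤ |t| - 1 / 2) : ‖U t‖ ≤ 3 * N * (1 + 1 / (30 * δ)) := by
  have hk := H.hκ
  have hN := H.hN
  rcases le_total 0 t with h0 | h0
  · rw [abs_of_nonneg h0] at h1 h2
    exact U_of_chain H.s.bdd 30 (by norm_num) (by omega) 1
      norm_one 2 two_pos H.k30 4 (by norm_num) (1 / 2) _ (by positivity) H.b.dp δ hδ t (by linarith)
      (by linarith)
  · rw [abs_of_nonpos h0] at h1 h2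
    have := U_of_chain (U := fun t => U (-t)) (fun t => H.s.bdd _) 30 (by norm_num) (by omega) 1
      norm_one 2 two_pos H.k30 4 (by norm_num) (1 / 2) _ (by positivity) H.b'.dp δ hδ (-t)
      (by linarith) (by linarith)
    simpa only [neg_neg] using this

lemma Pr4.regQ (H : Pr4 κ U η c M N) (δ : ℝ) (hδ : 0 < δ) (t : ℝ) (h1 : 1 / 4 ≤ |t|)
    (h2 : δ ≤ 1 / 2 - |t|) : ‖U t‖ ≤ 36 / 10 * N * (1 + 1 / (30 * δ)) := by
  have hk := H.hκ
  have hN := H.hN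
  rcases le_total 0 t with h0 | h0
  · rw [abs_of_nonneg h0] at h1 h2
    have := U_of_chain (U := fun t => U (-t)) (fun t => H.s.bdd _) 30 (by norm_num) (by omega) 1
      norm_one 2 two_pos H.k30 4 (by norm_num) (-1 / 2) _ (by positivity) H.b'.dq δ hδ (-t)
      (by linarith) (by linarith)
    simpa only [neg_neg] using this
  · rw [abs_of_nonpos h0] at h1 h2
    exact U_of_chain H.s.bdd 30 (by norm_num) (by omega) 1
      norm_one 2 two_pos H.k30 4 (by norm_num) (-1 / 2) _ (by positivity) H.b.dq δ hδ t (by linarith)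
      (by linarith)

lemma Pr4.regZ (H : Pr4 κ U η c M N) (δ : ℝ) (hδ : 0 < δ) (t : ℝ) (h1 : |t| ≤ 1 / 4)
    (h2 : δ ≤ |t|) : ‖U t‖ ≤ 45 / 10 * N * (1 + 1 / (30 * δ)) := by
  have hk := H.hκ
  have hN := H.hN
  rcases le_total 0 t with h0 | h0
  · rw [abs_of_nonneg h0] at h1 h2
    exact U_of_chain H.s.bdd 30 (by norm_num) (by omega) 1
      norm_one 2 two_pos H.k30 4 (by norm_num) 0 _ (by positivity) H.b.dz δ hδ t (by linarith)
      (by linarith)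
  · rw [abs_of_nonpos h0] at h1 h2
    have := U_of_chain (U := fun t => U (-t)) (fun t => H.s.bdd _) 30 (by norm_num) (by omega) 1
      norm_one 2 two_pos H.k30 4 (by norm_num) 0 _ (by positivity) H.b'.dz δ hδ (-t)
      (by linarith) (by linarith)
    simpa only [neg_neg] using this

lemma Pr4.far (H : Pr4 κ U η c M N) (y : ℝ) (hy : 11 / 4 ≤ |y|) :
    ‖U y‖ ≤ 2 * N * |y| / |y| ^ κ := by
  have hN := H.hN
  have hp : 0 < |y| := by linarith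
  have hy0 : y ≠ 0 := abs_pos.1 hp
  rw [H.s.norm_inv H.hη y hy0]
  gcongr
  rcases le_total |y| 4 with h4 | h4
  · have e1 : 1 / |y| ≤ 4 / 11 := by rw [div_le_iff₀ hp]; linarith
    have e2 : 1 / 4 ≤ 1 / |y| := by rw [le_div_iff₀ hp]; linarith
    refine (H.regQ (3 / 22) (by norm_num) (-1 / y) (by rw [abs_neg_one_div]; exact e2)
      (by rw [abs_neg_one_div]; linarith)).trans ?_
    have : 36 / 10 * N * (1 + 1 / (30 * (3 / 22))) = 448 / 100 * N := by ring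
    rw [this]
    nlinarith
  · have e1 : 1 / |y| ≤ 1 / 4 := by rw [div_le_iff₀ hp]; linarith
    refine (H.regZ (1 / |y|) (by positivity) (-1 / y) (by rw [abs_neg_one_div]; exact e1)
      (by rw [abs_neg_one_div])).trans ?_
    have : 45 / 10 * N * (1 + 1 / (30 * (1 / |y|))) = 45 / 10 * N + 15 / 100 * (N * |y|) := by
      field_simp
      ring
    rw [this]
    nlinarith

lemma Pr4.tail (H : Pr4 κ U η c M N) (α β γ ε : ℝ)
    (n : ℕ) (x y : ℝ) (hx1 : 1 ≤ |x|) (hxy : |x| ≤ 12 / 11 * |y|)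
    (hy : 1 / 2 * (11 / 2 + n) ≤ |y|) :
    ‖((α * x ^ 3 + β * x ^ 2 + γ * x + ε : ℝ) : ℂ) * U y‖ ≤
      (|α| + |β| + |γ| + |ε|) * (2 / 100000 * N) / ((n : ℝ) + 1) ^ 2 := by
  have hN := H.hN
  have hn : (0 : ℝ) ≤ n := Nat.cast_nonneg n
  have hy1 : 11 / 4 ≤ |y| := by linarith
  have hp : 0 < |y| := by linarith
  have hU := H.far y hy1
  have hS : 0 ≤ |α| + |β| + |γ| + |ε| := by positivity
  have hP : |α * x ^ 3 + β * x ^ 2 + γ * x + ε| ≤ (|α| + |β| + |γ| + |ε|) * |x| ^ 3 := by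
    have h1 : |x| ^ 2 ≤ |x| ^ 3 := pow_le_pow_right₀ hx1 (by norm_num)
    have h2 : |x| ≤ |x| ^ 3 := by
      calc |x| = |x| ^ 1 := (pow_one _).symm
        _ ≤ |x| ^ 3 := pow_le_pow_right₀ hx1 (by norm_num)
    have h3 : 1 ≤ |x| ^ 3 := one_le_pow₀ hx1
    calc |α * x ^ 3 + β * x ^ 2 + γ * x + ε| ≤ |α * x ^ 3 + β * x ^ 2 + γ * x| + |ε| :=
          abs_add_le _ _
      _ ≤ |α * x ^ 3| + |β * x ^ 2| + |γ * x| + |ε| := by
          gcongr
          exact abs_add_three _ _ _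
      _ = |α| * |x| ^ 3 + |β| * |x| ^ 2 + |γ| * |x| + |ε| * 1 := by
          rw [abs_mul, abs_mul, abs_mul, abs_pow, abs_pow, mul_one]
      _ ≤ |α| * |x| ^ 3 + |β| * |x| ^ 3 + |γ| * |x| ^ 3 + |ε| * |x| ^ 3 := by gcongr
      _ = _ := by ring
  have hP2 : |α * x ^ 3 + β * x ^ 2 + γ * x + ε| ≤
      (|α| + |β| + |γ| + |ε|) * ((12 / 11) ^ 3 * |y| ^ 3) := by
    refine hP.trans ?_
    gcongr
    calc |x| ^ 3 ≤ (12 / 11 * |y|) ^ 3 := by gcongr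
      _ = _ := by ring
  rw [norm_mul, Complex.norm_real, Real.norm_eq_abs]
  -- the power
  have hpow : (11 / 4) ^ 12 * ((n : ℝ) + 1) ^ 2 * |y| ^ 4 ≤ |y| ^ κ := by
    have h1 : (n : ℝ) + 1 ≤ (1 + 2 * (n : ℝ) / 11) ^ 6 := by
      have := one_add_mul_le_pow (a := 2 * (n : ℝ) / 11) (by
        have : 0 ≤ 2 * (n : ℝ) / 11 := by positivity
        linarith) 6
      push_cast at this
      linarith
    have h2 : ((n : ℝ) + 1) ^ 2 ≤ (1 + 2 * (n : ℝ) / 11) ^ 12 := by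
      calc ((n : ℝ) + 1) ^ 2 ≤ ((1 + 2 * (n : ℝ) / 11) ^ 6) ^ 2 := by gcongr
        _ = (1 + 2 * (n : ℝ) / 11) ^ 12 := by ring
    calc (11 / 4) ^ 12 * ((n : ℝ) + 1) ^ 2 * |y| ^ 4
        ≤ (11 / 4) ^ 12 * (1 + 2 * (n : ℝ) / 11) ^ 12 * |y| ^ 4 := by gcongr
      _ = (1 / 2 * (11 / 2 + n)) ^ 12 * |y| ^ 4 := by rw [← mul_pow]; congr 2; ring
      _ ≤ |y| ^ 12 * |y| ^ 4 := by gcongr
      _ = |y| ^ 16 := by ring
      _ ≤ |y| ^ κ := pow_le_pow_right₀ (by linarith) H.hκ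
  have hn1 : (0 : ℝ) < ((n : ℝ) + 1) ^ 2 := by positivity
  calc |α * x ^ 3 + β * x ^ 2 + γ * x + ε| * ‖U y‖
      ≤ ((|α| + |β| + |γ| + |ε|) * ((12 / 11) ^ 3 * |y| ^ 3)) * (2 * N * |y| / |y| ^ κ) := by gcongr
    _ ≤ ((|α| + |β| + |γ| + |ε|) * ((12 / 11) ^ 3 * |y| ^ 3)) *
        (2 * N * |y| / ((11 / 4) ^ 12 * ((n : ℝ) + 1) ^ 2 * |y| ^ 4)) := by gcongr
    _ = (|α| + |β| + |γ| + |ε|) * (((12 / 11) ^ 3 * 2 / (11 / 4) ^ 12) * N) /
        ((n : ℝ) + 1) ^ 2 := by field_simp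
    _ ≤ (|α| + |β| + |γ| + |ε|) * (2 / 100000 * N) / ((n : ℝ) + 1) ^ 2 := by
      have h5 : ((12 / 11) ^ 3 * 2 / (11 / 4) ^ 12 : ℝ) * N ≤ 2 / 100000 * N :=
        mul_le_mul_of_nonneg_right (by norm_num) hN
      exact div_le_div_of_nonneg_right (mul_le_mul_of_nonneg_left h5 hS) hn1.le

/-- The split Poisson relation with a cubic weight. -/
lemma Pr4.rel (H : Pr4 κ U η c M N) (α β γ ε : ℝ)
    (w : ℝ) (hw : 4 ≤ w) (P : ℝ → ℂ)
    (hP : ∀ x, P x = ((α * x ^ 3 + β * x ^ 2 + γ * x + ε : ℝ) : ℂ)) :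
    ∃ R : ℂ, ‖R‖ ≤ (|α| + |β| + |γ| + |ε|) * (8 / 100000 * (N / w ^ κ)) ∧
      P (-1) * Fn U κ (-1) w + P (-1 / 2) * Fn U κ (-1 / 2) w + P 0 * Fn U κ 0 w +
      P (1 / 2) * Fn U κ (1 / 2) w + P 1 * Fn U κ 1 w + P (3 / 2) * Fn U κ (3 / 2) w +
      P 2 * Fn U κ 2 w + P (5 / 2) * Fn U κ (5 / 2) w + P (-3 / 2) * Fn U κ (-3 / 2) w +
      P (-2) * Fn U κ (-2) w + P (-5 / 2) * Fn U κ (-5 / 2) w + R = 0 := by
  have hk := H.hκ
  have hN := H.hN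
  have hwp : 0 < w := by linarith
  have hw1 : 0 < 1 / w := by positivity
  have hw3 : 1 / w ≤ 1 / 4 := by gcongr
  set f : ℤ → ℂ := fun m => P (-1 + 2 * m / 4) * U ((-1 + 1 / w) + 2 * m / 4) with hf
  have hfx : ∀ (m : ℤ) (x : ℝ), x = -1 + 2 * m / 4 → f m = P x * U (x + 1 / w) := by
    intro m x hx
    simp only [hf]
    rw [hx]
    congr 2
    ring
  obtain ⟨s1, s2⟩ := rel_poly (by norm_num) (by norm_num) H.s H.hη (by omega : 6 ≤ κ)
    (fun i => if i = 0 then ((-α + β - γ + ε : ℝ) : ℂ) else if i = 1 then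
      ((3 * α / 2 - β + γ / 2 : ℝ) : ℂ) else if i = 2 then ((-3 * α / 4 + β / 4 : ℝ) : ℂ) else
      ((α / 8 : ℝ) : ℂ)) (-1 + 1 / w)
  have e : ∀ m : ℤ, (∑ i ∈ Finset.range 4, (if i = 0 then ((-α + β - γ + ε : ℝ) : ℂ) else
      if i = 1 then ((3 * α / 2 - β + γ / 2 : ℝ) : ℂ) else if i = 2 then
      ((-3 * α / 4 + β / 4 : ℝ) : ℂ) else ((α / 8 : ℝ) : ℂ)) * (m : ℂ) ^ i) *
      U ((-1 + 1 / w) + 2 * m / (4 : ℕ)) = f m := by
    intro m
    simp only [hf, hP]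
    simp only [Finset.sum_range_succ, Finset.sum_range_zero]
    norm_num
    left
    ring
  simp_rw [e] at s1 s2
  obtain ⟨R, hR, hR2⟩ := split_zero f s1 s2 8 3 ((|α| + |β| + |γ| + |ε|) * (2 / 100000 * N)) (by
    intro n
    rw [hfx _ (3 + n / 2) (by push_cast; ring), hP]
    have hn : (0 : ℝ) ≤ n := Nat.cast_nonneg n
    have h1 : |(3 + (n : ℝ) / 2)| = 3 + (n : ℝ) / 2 := abs_of_nonneg (by positivity)
    have h2 : |(3 + (n : ℝ) / 2 + 1 / w)| = 3 + (n : ℝ) / 2 + 1 / w :=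
      abs_of_nonneg (by positivity)
    exact H.tail α β γ ε n _ _ (by rw [h1]; linarith)
      (by rw [h1, h2]; linarith) (by rw [h2]; linarith)) (by
    intro n
    rw [hfx _ (-(3 + n / 2)) (by push_cast; ring), hP]
    have hn : (0 : ℝ) ≤ n := Nat.cast_nonneg n
    have h1 : |(-(3 + (n : ℝ) / 2))| = 3 + (n : ℝ) / 2 := by
      rw [abs_neg]
      exact abs_of_nonneg (by positivity)
    have h2 : |(-(3 + (n : ℝ) / 2) + 1 / w)| = 3 + (n : ℝ) / 2 - 1 / w := by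
      rw [abs_of_nonpos (by linarith)]
      ring
    exact H.tail α β γ ε n _ _ (by rw [h1]; linarith)
      (by rw [h1, h2]; linarith) (by rw [h2]; linarith))
  refine ⟨R / (w : ℂ) ^ κ, ?_, ?_⟩
  · rw [norm_div, norm_pow, Complex.norm_real, Real.norm_eq_abs, abs_of_pos hwp]
    calc ‖R‖ / w ^ κ ≤ 4 * ((|α| + |β| + |γ| + |ε|) * (2 / 100000 * N)) / w ^ κ := by gcongr
      _ = _ := by ring
  · simp only [Finset.sum_range_succ, Finset.sum_range_zero] at hR2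
    rw [hfx ((0 : ℕ) : ℤ) (-1) (by norm_num), hfx ((1 : ℕ) : ℤ) (-1 / 2) (by norm_num),
      hfx ((2 : ℕ) : ℤ) 0 (by norm_num), hfx ((3 : ℕ) : ℤ) (1 / 2) (by norm_num),
      hfx ((4 : ℕ) : ℤ) 1 (by norm_num), hfx ((5 : ℕ) : ℤ) (3 / 2) (by norm_num),
      hfx ((6 : ℕ) : ℤ) 2 (by norm_num), hfx ((7 : ℕ) : ℤ) (5 / 2) (by norm_num),
      hfx (-(((0 : ℕ) : ℤ) + 1)) (-3 / 2) (by norm_num),
      hfx (-(((1 : ℕ) : ℤ) + 1)) (-2) (by norm_num),
      hfx (-(((2 : ℕ) : ℤ) + 1)) (-5 / 2) (by norm_num)] at hR2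
    simp only [Fn]
    linear_combination hR2 / (w : ℂ) ^ κ

/-- The four relations. -/
lemma Pr4.rels (H : Pr4 κ U η c M N) (w : ℝ) (hw : 4 ≤ w) :
    (∃ R : ℂ, ‖R‖ ≤ 2 / 10000 * (N / w ^ κ) ∧ Fn U κ (-1) w - c * Fn U κ (-1) (w + 1) =
      ((10 : ℝ) : ℂ) * (Fn U κ 2 w - Fn U κ (-2) w) +
      ((4 : ℝ) : ℂ) * (Fn U κ (3 / 2) w - Fn U κ (-3 / 2) w) +
      ((20 : ℝ) : ℂ) * (Fn U κ (5 / 2) w - Fn U κ (-5 / 2) w) + R) ∧
    (∃ R : ℂ, ‖R‖ ≤ 5 / 10000 * (N / w ^ κ) ∧ Fn U κ (-1 / 2) w - Fn U κ (1 / 2) w =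
      ((-16 : ℝ) : ℂ) * (Fn U κ 2 w - Fn U κ (-2) w) -
      ((5 : ℝ) : ℂ) * (Fn U κ (3 / 2) w - Fn U κ (-3 / 2) w) -
      ((35 : ℝ) : ℂ) * (Fn U κ (5 / 2) w - Fn U κ (-5 / 2) w) - R) ∧
    (∃ R : ℂ, ‖R‖ ≤ 8 / 10000 * (N / w ^ κ) ∧ Fn U κ 0 w =
      ((6 : ℝ) : ℂ) * Fn U κ (-1) w - ((4 : ℝ) : ℂ) * Fn U κ (3 / 2) w +
      ((20 : ℝ) : ℂ) * Fn U κ (-3 / 2) w - ((15 : ℝ) : ℂ) * Fn U κ 2 w +
      ((45 : ℝ) : ℂ) * Fn U κ (-2) w - ((36 : ℝ) : ℂ) * Fn U κ (5 / 2) w +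
      ((84 : ℝ) : ℂ) * Fn U κ (-5 / 2) w - R) ∧
    (∃ R : ℂ, ‖R‖ ≤ 64 / 100000 * (N / w ^ κ) ∧ Fn U κ (1 / 2) w =
      ((-4 : ℝ) : ℂ) * Fn U κ (-1) w + ((6 : ℝ) : ℂ) * Fn U κ (3 / 2) w -
      ((15 : ℝ) : ℂ) * Fn U κ (-3 / 2) w + ((20 : ℝ) : ℂ) * Fn U κ 2 w -
      ((36 : ℝ) : ℂ) * Fn U κ (-2) w + ((45 : ℝ) : ℂ) * Fn U κ (5 / 2) w -
      ((70 : ℝ) : ℂ) * Fn U κ (-5 / 2) w + R) := by
  have hwp : 0 < w := by linarith
  have hN := H.hN
  have hX : 0 ≤ N / w ^ κ := by positivity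
  have h1 : Fn U κ 1 w = c * Fn U κ (-1) (w + 1) := by
    rw [Fn_inv H.s 1 w one_ne_zero hwp.ne' (by positivity), H.hc]
    norm_num
  refine ⟨?_, ?_, ?_, ?_⟩
  · obtain ⟨R, hR, e⟩ := H.rel 1 0 (-1 / 4) 0 w hw
      (fun x => ((1 * x ^ 3 + 0 * x ^ 2 + -1 / 4 * x + 0 : ℝ) : ℂ)) (fun x => rfl)
    refine ⟨((4 / 3 : ℝ) : ℂ) * R, ?_, ?_⟩
    · refine (nmul (4 / 3) hR).trans ?_
      rw [abs_one, abs_zero, show |(-1 / 4 : ℝ)| = 1 / 4 by norm_num [abs_of_neg],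
        show |(4 / 3 : ℝ)| = 4 / 3 by norm_num]
      linarith
    · rw [h1] at e
      push_cast at e ⊢
      linear_combination -(4 / 3) * e
  · obtain ⟨R, hR, e⟩ := H.rel 1 0 (-1) 0 w hw
      (fun x => ((1 * x ^ 3 + 0 * x ^ 2 + -1 * x + 0 : ℝ) : ℂ)) (fun x => rfl)
    refine ⟨((8 / 3 : ℝ) : ℂ) * R, ?_, ?_⟩
    · refine (nmul (8 / 3) hR).trans ?_
      rw [abs_one, abs_zero, abs_neg, abs_one, show |(8 / 3 : ℝ)| = 8 / 3 by norm_num]
      linarith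
    · push_cast at e ⊢
      linear_combination (8 / 3) * e
  · obtain ⟨R, hR, e⟩ := H.rel 1 (-1) (-1 / 4) (1 / 4) w hw
      (fun x => ((1 * x ^ 3 + -1 * x ^ 2 + -1 / 4 * x + 1 / 4 : ℝ) : ℂ)) (fun x => rfl)
    refine ⟨((4 : ℝ) : ℂ) * R, ?_, ?_⟩
    · refine (nmul 4 hR).trans (le_of_eq ?_)
      rw [abs_one, abs_neg, abs_one, show |(-1 / 4 : ℝ)| = 1 / 4 by norm_num [abs_of_neg],
        show |(1 / 4 : ℝ)| = 1 / 4 by norm_num, show |(4 : ℝ)| = 4 by norm_num]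
      ring
    · push_cast at e ⊢
      linear_combination 4 * e
  · obtain ⟨R, hR, e⟩ := H.rel 1 (-1 / 2) (-1 / 2) 0 w hw
      (fun x => ((1 * x ^ 3 + -1 / 2 * x ^ 2 + -1 / 2 * x + 0 : ℝ) : ℂ)) (fun x => rfl)
    refine ⟨((4 : ℝ) : ℂ) * R, ?_, ?_⟩
    · refine (nmul 4 hR).trans (le_of_eq ?_)
      rw [abs_one, abs_zero, show |(-1 / 2 : ℝ)| = 1 / 2 by norm_num [abs_of_neg],
        show |(4 : ℝ)| = 4 by norm_num]
      ring
    · push_cast at e ⊢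
      linear_combination -4 * e

/-- Bounds at the points `±3/2`, `±5/2`. -/
lemma Pr4.pts (H : Pr4 κ U η c M N) (w : ℝ) (hw : 4 ≤ w) :
    ‖Fn U κ (3 / 2) w‖ ≤ 67 / 10000 * N / w ^ κ ∧ ‖Fn U κ (-3 / 2) w‖ ≤ 376 / 10000 * N / w ^ κ ∧
    ‖Fn U κ (5 / 2) w‖ ≤ 3 / 1000000 * N / w ^ κ ∧
    ‖Fn U κ (-5 / 2) w‖ ≤ 14 / 1000000 * N / w ^ κ := by
  have hN := H.hN
  have hwp : 0 < w := by linarith
  have hw1 : 0 < 1 / w := by positivity
  have hw3 : 1 / w ≤ 1 / 4 := by gcongr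
  have a1 : |(3 / 2 + 1 / w)| = 3 / 2 + 1 / w := abs_of_pos (by linarith)
  have a2 : |(-3 / 2 + 1 / w)| = 3 / 2 - 1 / w := by rw [abs_of_neg (by linarith)]; ring
  have a3 : |(5 / 2 + 1 / w)| = 5 / 2 + 1 / w := abs_of_pos (by linarith)
  have a4 : |(-5 / 2 + 1 / w)| = 5 / 2 - 1 / w := by rw [abs_of_neg (by linarith)]; ring
  refine ⟨?_, ?_, ?_, ?_⟩
  · refine Fn_le H.s H.hη H.hκ (3 / 2) (3 * N * (1 + 1 / (30 * (1 / 14)))) (44 / 10)
      (67 / 10000) N hN (by norm_num) (by ring) (by norm_num) (by norm_num) hwp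
      (by rw [a1]; linarith) ?_
    refine H.regP (1 / 14) (by norm_num) _ ?_ ?_
    · rw [abs_neg_one_div, a1, div_le_iff₀ (by linarith)]
      linarith
    · rw [abs_neg_one_div, a1]
      have : 4 / 7 ≤ 1 / (3 / 2 + 1 / w) := by
        rw [le_div_iff₀ (by linarith)]
        linarith
      linarith
  · rcases le_total (3 / 2 - 1 / w) (4 / 3) with h | h
    · refine Fn_le H.s H.hη H.hκ (5 / 4) (N * (1 + 1 / (15 * (1 / 5)))) (4 / 3)
        (376 / 10000) N hN (by norm_num) (by ring) (by norm_num) (by norm_num) hwp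
        (by rw [a2]; linarith) ?_
      refine H.regA (1 / 5) (by norm_num) _ ?_ ?_
      · rw [abs_neg_one_div, a2, le_div_iff₀ (by linarith)]
        linarith
      · rw [abs_neg_one_div, a2]
        have : 1 / (3 / 2 - 1 / w) ≤ 4 / 5 := by
          rw [div_le_iff₀ (by linarith)]
          linarith
        linarith
    · refine Fn_le H.s H.hη H.hκ (4 / 3) (3 * N * (1 + 1 / (30 * (1 / 6)))) (36 / 10)
        (376 / 10000) N hN (by norm_num) (by ring) (by norm_num) (by norm_num) hwp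
        (by rw [a2]; linarith) ?_
      refine H.regP (1 / 6) (by norm_num) _ ?_ ?_
      · rw [abs_neg_one_div, a2, div_le_iff₀ (by linarith)]
        linarith
      · rw [abs_neg_one_div, a2]
        have : 2 / 3 ≤ 1 / (3 / 2 - 1 / w) := by
          rw [le_div_iff₀ (by linarith)]
          linarith
        linarith
  · refine Fn_le H.s H.hη H.hκ (5 / 2) (36 / 10 * N * (1 + 1 / (30 * (1 / 10)))) (48 / 10)
      (3 / 1000000) N hN (by norm_num) (by ring) (by norm_num) (by norm_num) hwp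
      (by rw [a3]; linarith) ?_
    refine H.regQ (1 / 10) (by norm_num) _ ?_ ?_
    · rw [abs_neg_one_div, a3, le_div_iff₀ (by linarith)]
      linarith
    · rw [abs_neg_one_div, a3]
      have : 1 / (5 / 2 + 1 / w) ≤ 2 / 5 := by
        rw [div_le_iff₀ (by linarith)]
        linarith
      linarith
  · refine Fn_le H.s H.hη H.hκ (9 / 4) (36 / 10 * N * (1 + 1 / (30 * (1 / 18)))) (576 / 100)
      (14 / 1000000) N hN (by norm_num) (by ring) (by norm_num) (by norm_num) hwp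
      (by rw [a4]; linarith) ?_
    refine H.regQ (1 / 18) (by norm_num) _ ?_ ?_
    · rw [abs_neg_one_div, a4, le_div_iff₀ (by linarith)]
      linarith
    · rw [abs_neg_one_div, a4]
      have : 1 / (5 / 2 - 1 / w) ≤ 4 / 9 := by
        rw [div_le_iff₀ (by linarith)]
        linarith
      linarith

lemma Pr4.step (H : Pr4 κ U η c M N) : Bd4 κ U c (19 / 20 * N) := by
  have hN := H.hN
  have hκ := H.hκ
  have hb := H.b
  obtain ⟨hc2, hcn⟩ := c_facts H.hη H.hev H.hc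
  have P := H.pts
  have Rel := H.rels
  have hX : ∀ w : ℝ, 4 ≤ w → 0 ≤ N / w ^ κ := by
    intro w hw
    have : 0 < w := by linarith
    positivity
  have hXm : ∀ w r : ℝ, 4 ≤ w → 0 ≤ r → N / (w + r) ^ κ ≤ N / w ^ κ := by
    intro w r hw hr
    have : 0 < w := by linarith
    gcongr
    linarith
  -- D_a
  have hDa : ∀ w, 4 ≤ w → ‖Fn U κ (-1) w - c * Fn U κ (-1) (w + 1)‖ ≤
      18774 / 100000 * (N / w ^ κ) := by
    intro w hw
    obtain ⟨⟨R, hR, e⟩, -, -, -⟩ := Rel w hw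
    obtain ⟨p1, p2, p3, p4⟩ := P w hw
    rw [e]
    refine (nadd (nadd (nadd (nmul _ (hb.g w hw)) (nmul _ (nsub p1 p2))) (nmul _ (nsub p3 p4)))
      hR).trans (le_of_eq ?_)
    rw [show |(10 : ℝ)| = 10 by norm_num, show |(4 : ℝ)| = 4 by norm_num,
      show |(20 : ℝ)| = 20 by norm_num]
    ring
  have hDa2 : ∀ w, 4 ≤ w → ‖Fn U κ (-1) w - 1 * Fn U κ (-1) (w + 2)‖ ≤
      37548 / 100000 * (N / w ^ κ) := by
    intro w hw
    have e : Fn U κ (-1) w - 1 * Fn U κ (-1) (w + 2) =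
        (Fn U κ (-1) w - c * Fn U κ (-1) (w + 1)) +
        c * (Fn U κ (-1) (w + 1) - c * Fn U κ (-1) (w + 1 + 1)) := by
      have : w + 1 + 1 = w + 2 := by ring
      rw [this]
      linear_combination (Fn U κ (-1) (w + 2)) * hc2
    have h1 := hDa w hw
    have h2 := hDa (w + 1) (by linarith)
    have h3 := hXm w 1 hw (by norm_num)
    rw [e]
    have h4 : ‖c * (Fn U κ (-1) (w + 1) - c * Fn U κ (-1) (w + 1 + 1))‖ ≤
        18774 / 100000 * (N / w ^ κ) := by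
      rw [norm_mul, hcn, one_mul]
      linarith
    refine (nadd h1 h4).trans (le_of_eq ?_)
    ring
  -- E
  have hE : ∀ w, 4 ≤ w → ‖Fn U κ (-1 / 2) w - Fn U κ (1 / 2) w‖ ≤
      2386 / 10000 * (N / w ^ κ) := by
    intro w hw
    obtain ⟨-, ⟨R, hR, e⟩, -, -⟩ := Rel w hw
    obtain ⟨p1, p2, p3, p4⟩ := P w hw
    rw [e]
    refine (nsub (nsub (nsub (nmul _ (hb.g w hw)) (nmul _ (nsub p1 p2))) (nmul _ (nsub p3 p4)))
      hR).trans ?_
    rw [show |(-16 : ℝ)| = 16 by norm_num, show |(5 : ℝ)| = 5 by norm_num,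
      show |(35 : ℝ)| = 35 by norm_num]
    have := hX w hw
    have x0 : 1 / 1000 * N / w ^ κ = 1 / 1000 * (N / w ^ κ) := by ring
    have x1 : 67 / 10000 * N / w ^ κ = 67 / 10000 * (N / w ^ κ) := by ring
    have x2 : 376 / 10000 * N / w ^ κ = 376 / 10000 * (N / w ^ κ) := by ring
    have x3 : 3 / 1000000 * N / w ^ κ = 3 / 1000000 * (N / w ^ κ) := by ring
    have x4 : 14 / 1000000 * N / w ^ κ = 14 / 1000000 * (N / w ^ κ) := by ring
    rw [x0, x1, x2, x3, x4]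
    linarith
  -- inversions
  have i2 : ∀ w, 4 ≤ w → Fn U κ 2 w = c * 2 ^ κ * Fn U κ (-1 / 2) (4 * w + 2) := by
    intro w hw
    rw [Fn_inv H.s 2 w (by norm_num) (by positivity) (by positivity), H.hc, mul_pow]
    have : (2 : ℝ) ^ 2 * w + 2 = 4 * w + 2 := by ring
    rw [this]
    push_cast
    ring
  have im2 : ∀ w, 4 ≤ w → Fn U κ (-2) w = c * 2 ^ κ * Fn U κ (1 / 2) (4 * w - 2) := by
    intro w hw
    rw [Fn_inv H.s (-2) w (by norm_num) (by positivity) (by linarith), H.hc, mul_pow]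
    have : (-2 : ℝ) ^ 2 * w + -2 = 4 * w - 2 := by ring
    rw [this]
    have h2 : (-1 / -2 : ℝ) = 1 / 2 := by norm_num
    rw [h2]
    have h3 : ((-2 : ℝ) : ℂ) ^ κ = 2 ^ κ := by
      push_cast
      exact H.hev.neg_pow 2
    rw [h3]
    ring
  have n2 : ‖(2 : ℂ) ^ κ‖ = 2 ^ κ := by rw [norm_pow]; norm_num
  -- shifts of g
  have hΔ1 : ∀ w, 4 ≤ w → ‖Fn U κ 2 w - 1 * Fn U κ 2 (w + 2)‖ ≤ 22 / 100000 * (N / w ^ κ) := by
    intro w hw
    have hwp : 0 < w := by linarith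
    have e : Fn U κ 2 w - 1 * Fn U κ 2 (w + 2) = c * (2 ^ κ *
        (Fn U κ (-1 / 2) (4 * w + 2) - 1 ^ 4 * Fn U κ (-1 / 2) (4 * w + 2 + (4 : ℕ) * 2))) := by
      rw [i2 w hw, i2 (w + 2) (by linarith)]
      have : 4 * (w + 2) + 2 = 4 * w + 2 + (4 : ℕ) * 2 := by push_cast; ring
      rw [this]
      ring
    rw [e, norm_mul, hcn, one_mul, norm_mul, n2]
    have t := tele_le κ (Fn U κ (-1 / 2)) 1 norm_one 2 (by norm_num) 4 (by norm_num) (36 / 10 * N)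
      (by positivity) hb.dq 4 (4 * w + 2) (by linarith)
    calc 2 ^ κ * ‖Fn U κ (-1 / 2) (4 * w + 2) - 1 ^ 4 * Fn U κ (-1 / 2) (4 * w + 2 + (4 : ℕ) * 2)‖
        ≤ 2 ^ κ * ((4 : ℕ) * (36 / 10 * N / (4 * w + 2) ^ κ)) := by gcongr
      _ = 2 ^ κ * ((144 / 10 * N) / (4 * w + 2) ^ κ) := by push_cast; ring
      _ ≤ 144 / 10 * N / 2 ^ 16 / w ^ κ := scale_le hκ (by positivity) hwp (by norm_num)
          (by norm_num) (by linarith)
      _ = (144 / 10 / 2 ^ 16) * (N / w ^ κ) := by ring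
      _ ≤ _ := mul_le_mul_of_nonneg_right (by norm_num) (hX w hw)
  have hΔ2 : ∀ w, 4 ≤ w → ‖Fn U κ (-2) w - 1 * Fn U κ (-2) (w + 2)‖ ≤
      156 / 100000 * (N / w ^ κ) := by
    intro w hw
    have hwp : 0 < w := by linarith
    have e : Fn U κ (-2) w - 1 * Fn U κ (-2) (w + 2) = c * (2 ^ κ *
        (Fn U κ (1 / 2) (4 * w - 2) - 1 ^ 4 * Fn U κ (1 / 2) (4 * w - 2 + (4 : ℕ) * 2))) := by
      rw [im2 w hw, im2 (w + 2) (by linarith)]
      have : 4 * (w + 2) - 2 = 4 * w - 2 + (4 : ℕ) * 2 := by push_cast; ring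
      rw [this]
      ring
    rw [e, norm_mul, hcn, one_mul, norm_mul, n2]
    have t := tele_le κ (Fn U κ (1 / 2)) 1 norm_one 2 (by norm_num) 4 (by norm_num) (3 * N)
      (by positivity) hb.dp 4 (4 * w - 2) (by linarith)
    calc 2 ^ κ * ‖Fn U κ (1 / 2) (4 * w - 2) - 1 ^ 4 * Fn U κ (1 / 2) (4 * w - 2 + (4 : ℕ) * 2)‖
        ≤ 2 ^ κ * ((4 : ℕ) * (3 * N / (4 * w - 2) ^ κ)) := by gcongr
      _ = 2 ^ κ * ((12 * N) / (4 * w - 2) ^ κ) := by push_cast; ring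
      _ ≤ 12 * N / (7 / 4) ^ 16 / w ^ κ := scale_le hκ (by positivity) hwp (by norm_num)
          (by norm_num) (by linarith)
      _ = (12 / (7 / 4) ^ 16) * (N / w ^ κ) := by ring
      _ ≤ _ := mul_le_mul_of_nonneg_right (by norm_num) (hX w hw)
  have Q : ∀ w, 4 ≤ w →
      ‖Fn U κ (3 / 2) w - 1 * Fn U κ (3 / 2) (w + 2)‖ ≤ 134 / 10000 * (N / w ^ κ) ∧
      ‖Fn U κ (-3 / 2) w - 1 * Fn U κ (-3 / 2) (w + 2)‖ ≤ 752 / 10000 * (N / w ^ κ) ∧
      ‖Fn U κ (5 / 2) w - 1 * Fn U κ (5 / 2) (w + 2)‖ ≤ 6 / 1000000 * (N / w ^ κ) ∧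
      ‖Fn U κ (-5 / 2) w - 1 * Fn U κ (-5 / 2) (w + 2)‖ ≤ 28 / 1000000 * (N / w ^ κ) := by
    intro w hw
    refine ⟨?_, ?_, ?_, ?_⟩
    · refine (nshift norm_one (C := 67 / 10000 * N) (by positivity) (by norm_num)
        (fun w hw => (P w hw).1) 2 (by norm_num) w hw).trans (le_of_eq ?_)
      ring
    · refine (nshift norm_one (C := 376 / 10000 * N) (by positivity) (by norm_num)
        (fun w hw => (P w hw).2.1) 2 (by norm_num) w hw).trans (le_of_eq ?_)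
      ring
    · refine (nshift norm_one (C := 3 / 1000000 * N) (by positivity) (by norm_num)
        (fun w hw => (P w hw).2.2.1) 2 (by norm_num) w hw).trans (le_of_eq ?_)
      ring
    · refine (nshift norm_one (C := 14 / 1000000 * N) (by positivity) (by norm_num)
        (fun w hw => (P w hw).2.2.2) 2 (by norm_num) w hw).trans (le_of_eq ?_)
      ring
  -- D_z
  have hDz : ∀ w, 4 ≤ w → ‖Fn U κ 0 w - 1 * Fn U κ 0 (w + 2)‖ ≤ 3889 / 1000 * (N / w ^ κ) := by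
    intro w hw
    obtain ⟨-, -, ⟨R, hR, e⟩, -⟩ := Rel w hw
    obtain ⟨-, -, ⟨R', hR', e'⟩, -⟩ := Rel (w + 2) (by linarith)
    obtain ⟨q1, q2, q3, q4⟩ := Q w hw
    have hR'' : ‖R'‖ ≤ 8 / 10000 * (N / w ^ κ) := by
      refine hR'.trans ?_
      have := hXm w 2 hw (by norm_num)
      linarith
    have e2 : Fn U κ 0 w - 1 * Fn U κ 0 (w + 2) =
        ((6 : ℝ) : ℂ) * (Fn U κ (-1) w - 1 * Fn U κ (-1) (w + 2)) -
        ((4 : ℝ) : ℂ) * (Fn U κ (3 / 2) w - 1 * Fn U κ (3 / 2) (w + 2)) +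
        ((20 : ℝ) : ℂ) * (Fn U κ (-3 / 2) w - 1 * Fn U κ (-3 / 2) (w + 2)) -
        ((15 : ℝ) : ℂ) * (Fn U κ 2 w - 1 * Fn U κ 2 (w + 2)) +
        ((45 : ℝ) : ℂ) * (Fn U κ (-2) w - 1 * Fn U κ (-2) (w + 2)) -
        ((36 : ℝ) : ℂ) * (Fn U κ (5 / 2) w - 1 * Fn U κ (5 / 2) (w + 2)) +
        ((84 : ℝ) : ℂ) * (Fn U κ (-5 / 2) w - 1 * Fn U κ (-5 / 2) (w + 2)) - R + R' := by
      rw [e, e']
      ring
    rw [e2]
    refine (nadd (nsub (nadd (nsub (nadd (nsub (nadd (nsub (nmul _ (hDa2 w hw)) (nmul _ q1))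
      (nmul _ q2)) (nmul _ (hΔ1 w hw))) (nmul _ (hΔ2 w hw))) (nmul _ q3)) (nmul _ q4)) hR)
      hR'').trans ?_
    rw [show |(6 : ℝ)| = 6 by norm_num, show |(4 : ℝ)| = 4 by norm_num,
      show |(20 : ℝ)| = 20 by norm_num, show |(15 : ℝ)| = 15 by norm_num,
      show |(45 : ℝ)| = 45 by norm_num, show |(36 : ℝ)| = 36 by norm_num,
      show |(84 : ℝ)| = 84 by norm_num]
    have := hX w hw
    linarith
  -- D_p
  have hDp : ∀ w, 4 ≤ w → ‖Fn U κ (1 / 2) w - 1 * Fn U κ (1 / 2) (w + 2)‖ ≤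
      2775 / 1000 * (N / w ^ κ) := by
    intro w hw
    obtain ⟨-, -, -, ⟨R, hR, e⟩⟩ := Rel w hw
    obtain ⟨-, -, -, ⟨R', hR', e'⟩⟩ := Rel (w + 2) (by linarith)
    obtain ⟨q1, q2, q3, q4⟩ := Q w hw
    have hR'' : ‖R'‖ ≤ 64 / 100000 * (N / w ^ κ) := by
      refine hR'.trans ?_
      have := hXm w 2 hw (by norm_num)
      linarith
    have e2 : Fn U κ (1 / 2) w - 1 * Fn U κ (1 / 2) (w + 2) =
        ((-4 : ℝ) : ℂ) * (Fn U κ (-1) w - 1 * Fn U κ (-1) (w + 2)) +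
        ((6 : ℝ) : ℂ) * (Fn U κ (3 / 2) w - 1 * Fn U κ (3 / 2) (w + 2)) -
        ((15 : ℝ) : ℂ) * (Fn U κ (-3 / 2) w - 1 * Fn U κ (-3 / 2) (w + 2)) +
        ((20 : ℝ) : ℂ) * (Fn U κ 2 w - 1 * Fn U κ 2 (w + 2)) -
        ((36 : ℝ) : ℂ) * (Fn U κ (-2) w - 1 * Fn U κ (-2) (w + 2)) +
        ((45 : ℝ) : ℂ) * (Fn U κ (5 / 2) w - 1 * Fn U κ (5 / 2) (w + 2)) -
        ((70 : ℝ) : ℂ) * (Fn U κ (-5 / 2) w - 1 * Fn U κ (-5 / 2) (w + 2)) + R - R' := by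
      rw [e, e']
      ring
    rw [e2]
    refine (nsub (nadd (nsub (nadd (nsub (nadd (nsub (nadd (nmul _ (hDa2 w hw)) (nmul _ q1))
      (nmul _ q2)) (nmul _ (hΔ1 w hw))) (nmul _ (hΔ2 w hw))) (nmul _ q3)) (nmul _ q4)) hR)
      hR'').trans ?_
    rw [show |(-4 : ℝ)| = 4 by norm_num, show |(6 : ℝ)| = 6 by norm_num,
      show |(15 : ℝ)| = 15 by norm_num, show |(20 : ℝ)| = 20 by norm_num,
      show |(36 : ℝ)| = 36 by norm_num, show |(45 : ℝ)| = 45 by norm_num,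
      show |(70 : ℝ)| = 70 by norm_num]
    have := hX w hw
    linarith
  -- D_q
  have hDq : ∀ w, 4 ≤ w → ‖Fn U κ (-1 / 2) w - 1 * Fn U κ (-1 / 2) (w + 2)‖ ≤
      3253 / 1000 * (N / w ^ κ) := by
    intro w hw
    have q1 := nshift norm_one (C := 2386 / 10000 * N) (by positivity) (by norm_num)
      (fun w hw => (hE w hw).trans (le_of_eq (by ring))) 2 (by norm_num) w hw
    have e2 : Fn U κ (-1 / 2) w - 1 * Fn U κ (-1 / 2) (w + 2) =
        (Fn U κ (-1 / 2) w - Fn U κ (1 / 2) w -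
          1 * (Fn U κ (-1 / 2) (w + 2) - Fn U κ (1 / 2) (w + 2))) +
        (Fn U κ (1 / 2) w - 1 * Fn U κ (1 / 2) (w + 2)) := by ring
    rw [e2]
    refine (nadd q1 (hDp w hw)).trans ?_
    have x1 : 2386 / 10000 * N / w ^ κ = 2386 / 10000 * (N / w ^ κ) := by ring
    rw [x1]
    have := hX w hw
    linarith
  refine ⟨?_, ?_, ?_, ?_, ?_⟩
  · intro w hw
    refine (hDa w hw).trans ?_
    have := hX w hw
    have x : 19 / 20 * N / w ^ κ = 19 / 20 * (N / w ^ κ) := by ring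
    rw [x]
    linarith
  · intro w hw
    refine (hDq w hw).trans ?_
    have := hX w hw
    have x : 36 / 10 * (19 / 20 * N) / w ^ κ = 342 / 100 * (N / w ^ κ) := by ring
    rw [x]
    linarith
  · intro w hw
    refine (hDz w hw).trans ?_
    have := hX w hw
    have x : 45 / 10 * (19 / 20 * N) / w ^ κ = 4275 / 1000 * (N / w ^ κ) := by ring
    rw [x]
    linarith
  · intro w hw
    refine (hDp w hw).trans ?_
    have := hX w hw
    have x : 3 * (19 / 20 * N) / w ^ κ = 285 / 100 * (N / w ^ κ) := by ring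
    rw [x]
    linarith
  · intro w hw
    have hwp : 0 < w := by linarith
    have t := tele_le κ (Fn U κ (1 / 2)) 1 norm_one 2 (by norm_num) 4 (by norm_num) (3 * N)
      (by positivity) hb.dp 2 (4 * w - 2) (by linarith)
    have hE' := hE (4 * w + 2) (by linarith)
    have e : Fn U κ 2 w - Fn U κ (-2) w = c * (2 ^ κ *
        ((Fn U κ (-1 / 2) (4 * w + 2) - Fn U κ (1 / 2) (4 * w + 2)) -
        (Fn U κ (1 / 2) (4 * w - 2) - 1 ^ 2 * Fn U κ (1 / 2) (4 * w - 2 + (2 : ℕ) * 2)))) := by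
      rw [i2 w hw, im2 w hw]
      have : 4 * w - 2 + (2 : ℕ) * 2 = 4 * w + 2 := by push_cast; ring
      rw [this]
      ring
    rw [e, norm_mul, hcn, one_mul, norm_mul, n2]
    calc 2 ^ κ * ‖(Fn U κ (-1 / 2) (4 * w + 2) - Fn U κ (1 / 2) (4 * w + 2)) -
        (Fn U κ (1 / 2) (4 * w - 2) - 1 ^ 2 * Fn U κ (1 / 2) (4 * w - 2 + (2 : ℕ) * 2))‖
        ≤ 2 ^ κ * (2386 / 10000 * (N / (4 * w + 2) ^ κ) +
          (2 : ℕ) * (3 * N / (4 * w - 2) ^ κ)) := by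
          gcongr
          exact nsub hE' t
      _ = 2 ^ κ * ((2386 / 10000 * N) / (4 * w + 2) ^ κ) +
          2 ^ κ * ((6 * N) / (4 * w - 2) ^ κ) := by
          push_cast; ring
      _ ≤ 2386 / 10000 * N / 2 ^ 16 / w ^ κ + 6 * N / (7 / 4) ^ 16 / w ^ κ :=
          add_le_add (scale_le hκ (by positivity) hwp (by norm_num) (by norm_num) (by linarith))
            (scale_le hκ (by positivity) hwp (by norm_num) (by norm_num) (by linarith))
      _ = (2386 / 10000 / 2 ^ 16 + 6 / (7 / 4) ^ 16) * (N / w ^ κ) := by ring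
      _ ≤ (1 / 1000 * (19 / 20)) * (N / w ^ κ) :=
          mul_le_mul_of_nonneg_right (by norm_num) (hX w hw)
      _ = _ := by ring

lemma base4 (hM : ∀ t, ‖U t‖ ≤ M) (hc : ‖c‖ = 1) : Bd4 κ U c (2000 * M) := by
  have hM0 : 0 ≤ M := (norm_nonneg _).trans (hM 0)
  have hF : ∀ x w : ℝ, 4 ≤ w → ‖Fn U κ x w‖ ≤ M / w ^ κ := by
    intro x w hw
    have hwp : 0 < w := by linarith
    rw [norm_Fn U κ x w hwp]
    gcongr
    exact hM _
  have hX : ∀ w : ℝ, 4 ≤ w → 0 ≤ M / w ^ κ := by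
    intro w hw
    have : 0 < w := by linarith
    positivity
  refine ⟨?_, ?_, ?_, ?_, ?_⟩
  · intro w hw
    refine (nshift hc hM0 (by norm_num) (hF (-1)) 1 (by norm_num) w hw).trans ?_
    have x : 2000 * M / w ^ κ = 2000 * (M / w ^ κ) := by ring
    rw [x]
    linarith [hX w hw]
  · intro w hw
    refine (nshift norm_one hM0 (by norm_num) (hF (-1 / 2)) 2 (by norm_num) w hw).trans ?_
    have x : 36 / 10 * (2000 * M) / w ^ κ = 7200 * (M / w ^ κ) := by ring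
    rw [x]
    linarith [hX w hw]
  · intro w hw
    refine (nshift norm_one hM0 (by norm_num) (hF 0) 2 (by norm_num) w hw).trans ?_
    have x : 45 / 10 * (2000 * M) / w ^ κ = 9000 * (M / w ^ κ) := by ring
    rw [x]
    linarith [hX w hw]
  · intro w hw
    refine (nshift norm_one hM0 (by norm_num) (hF (1 / 2)) 2 (by norm_num) w hw).trans ?_
    have x : 3 * (2000 * M) / w ^ κ = 6000 * (M / w ^ κ) := by ring
    rw [x]
    linarith [hX w hw]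
  · intro w hw
    refine (nsub (hF 2 w hw) (hF (-2) w hw)).trans (le_of_eq ?_)
    ring

theorem zero4 (h : Sys 4 κ η M U) (hη : η ^ 2 = 1) (hκ : 16 ≤ κ) (hev : Even κ) (t : ℝ) :
    U t = 0 := by
  have hM0 : 0 ≤ M := h.M_nonneg
  set c : ℂ := η * Complex.I ^ κ with hc
  have hr := h.refl
  rw [hev.neg_one_pow, mul_one] at hr
  have hcn : ‖c‖ = 1 := (c_facts hη hev hc).2
  have hrr : (fun t => (fun t => U (-t)) (-t)) = U := by
    funext t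
    simp
  have H : ∀ n : ℕ, Bd4 κ U c ((19 / 20) ^ n * (2000 * M)) ∧
      Bd4 κ (fun t => U (-t)) c ((19 / 20) ^ n * (2000 * M)) := by
    intro n
    induction n with
    | zero =>
      rw [pow_zero, one_mul]
      exact ⟨base4 h.bdd hcn, base4 hr.bdd hcn⟩
    | succ n ih =>
      have hN : 0 ≤ (19 / 20 : ℝ) ^ n * (2000 * M) := by positivity
      have e : (19 / 20 : ℝ) ^ (n + 1) * (2000 * M) = 19 / 20 * ((19 / 20) ^ n * (2000 * M)) := by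
        rw [pow_succ]; ring
      rw [e]
      have P1 : Pr4 κ U η c M ((19 / 20) ^ n * (2000 * M)) :=
        ⟨h, hη, hκ, hev, hN, hc, ih.1, ih.2⟩
      have P2 : Pr4 κ (fun t => U (-t)) η c M ((19 / 20) ^ n * (2000 * M)) :=
        ⟨hr, hη, hκ, hev, hN, hc, ih.2, by rw [hrr]; exact ih.1⟩
      exact ⟨P1.step, P2.step⟩
  -- zero inside
  have hin : ∀ t : ℝ, |t| < 1 → |t| ≠ 1 / 2 → |t| ≠ 0 → U t = 0 := by
    intro t h1 h2 h0
    obtain ⟨C, hC⟩ : ∃ C : ℝ, ∀ n : ℕ, ‖U t‖ ≤ (19 / 20) ^ n * C := by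
      have P : ∀ n : ℕ, Pr4 κ U η c M ((19 / 20) ^ n * (2000 * M)) := fun n =>
        ⟨h, hη, hκ, hev, by positivity, hc, (H n).1, (H n).2⟩
      have h00 : 0 < |t| := lt_of_le_of_ne (abs_nonneg t) (Ne.symm h0)
      rcases lt_or_gt_of_ne h2 with h3 | h3
      · rcases le_total |t| (1 / 4) with h4 | h4
        · refine ⟨45 / 10 * (2000 * M) * (1 + 1 / (30 * |t|)), fun n => ?_⟩
          exact ((P n).regZ |t| h00 t h4 le_rfl).trans (le_of_eq (by ring))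
        · refine ⟨36 / 10 * (2000 * M) * (1 + 1 / (30 * (1 / 2 - |t|))), fun n => ?_⟩
          exact ((P n).regQ (1 / 2 - |t|) (by linarith) t h4 le_rfl).trans (le_of_eq (by ring))
      · rcases le_total |t| (3 / 4) with h4 | h4
        · refine ⟨3 * (2000 * M) * (1 + 1 / (30 * (|t| - 1 / 2))), fun n => ?_⟩
          exact ((P n).regP (|t| - 1 / 2) (by linarith) t h4 le_rfl).trans (le_of_eq (by ring))
        · refine ⟨(2000 * M) * (1 + 1 / (15 * (1 - |t|))), fun n => ?_⟩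
          exact ((P n).regA (1 - |t|) (by linarith) t h4 le_rfl).trans (le_of_eq (by ring))
    have hlim : Tendsto (fun n : ℕ => (19 / 20 : ℝ) ^ n * C) atTop (𝓝 (0 * C)) :=
      (tendsto_pow_atTop_nhds_zero_of_lt_one (by norm_num) (by norm_num)).mul_const _
    rw [zero_mul] at hlim
    have := ge_of_tendsto hlim (Eventually.of_forall hC)
    exact norm_le_zero_iff.1 this
  have hout : ∀ t : ℝ, 1 < |t| → |t| ≠ 2 → U t = 0 := by
    intro t h1 h2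
    have ht : t ≠ 0 := by
      rintro rfl
      simp at h1
      linarith
    have hp : 0 < |t| := abs_pos.2 ht
    have h3 : U (-1 / t) = 0 := by
      apply hin
      · rw [abs_neg_one_div, div_lt_one hp]; exact h1
      · rw [abs_neg_one_div]
        intro h4
        apply h2
        field_simp at h4
        linarith
      · rw [abs_neg_one_div]
        positivity
    have := h.norm_inv hη t ht
    rw [h3, norm_zero, zero_div] at this
    exact norm_eq_zero.1 this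
  have hfin : ({0, 1, -1, 1 / 2, -(1 / 2), 2, -2} : Set ℝ).Finite := by
    simp
  have hd : Dense ({0, 1, -1, 1 / 2, -(1 / 2), 2, -2} : Set ℝ)ᶜ := hfin.countable.dense_compl ℝ
  have hext := Continuous.ext_on hd h.cont (continuous_const (y := (0 : ℂ))) (fun t ht => by
    simp only [mem_compl_iff, mem_insert_iff, mem_singleton_iff, not_or] at ht
    obtain ⟨a0, a1, a2, a3, a4, a5, a6⟩ := ht
    have abs_ne : ∀ c : ℝ, 0 ≤ c → t ≠ c → t ≠ -c → |t| ≠ c := by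
      intro c hc h1 h2 h3
      rcases abs_eq hc |>.1 h3 with h4 | h4
      · exact h1 h4
      · exact h2 h4
    rcases lt_or_gt_of_ne (abs_ne 1 (by norm_num) a1 a2) with h1 | h1
    · exact hin t h1 (abs_ne (1 / 2) (by norm_num) a3 a4) (abs_ne_zero.2 a0)
    · exact hout t h1 (abs_ne 2 (by norm_num) a5 a6))
  exact congrFun hext t

end

end Pool.Agent.KT97
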