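import Mathlib
import Pool.Agent.Lib_helper97.KT.K3
import Pool.Agent.Lib_helper97.KT.K4

/-!
Conclusion for radial Schwartz functions (MP_a65497_an).
-/

set_option autoImplicit false

open Set Filter Topology
open scoped FourierTransform SchwartzMap

namespace Pool.Agent.KT97

variable {d : ℕ}

lemma smooth_ray (f : 𝓢(EuclideanSpace ℝ (Fin d), ℂ)) (e : EuclideanSpace ℝ (Fin d)) (i : ℕ)
    (r : ℝ) : ContDiffAt ℝ i (fun t : ℝ => f (t • e)) r := by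
  have h1 : ContDiff ℝ i (f : EuclideanSpace ℝ (Fin d) → ℂ) := f.smooth i
  have h2 : ContDiff ℝ i (fun t : ℝ => t • e) := contDiff_id.smul contDiff_const
  exact (h1.comp h2).contDiffAt

theorem uniq_of_zero (κ k : ℕ) (hκ : 6 ≤ κ) (hk1 : 1 ≤ k) (hk4 : k ≤ 4) (hd : d = 2 * κ)
    (hZ : ∀ (η : ℂ) (M : ℝ) (U : ℝ → ℂ), η ^ 2 = 1 → Sys k κ η M U → ∀ t, U t = 0)
    (f : 𝓢(EuclideanSpace ℝ (Fin d), ℂ))
    (hf : ∀ x y : EuclideanSpace ℝ (Fin d), ‖x‖ = ‖y‖ → f x = f y)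
    (e : EuclideanSpace ℝ (Fin d)) (he : ‖e‖ = 1)
    (hz : ∀ n : ℕ, 1 ≤ n → ∀ i < k,
      iteratedDeriv i (fun t : ℝ => f (t • e)) (Real.sqrt (k * n)) = 0)
    (hz' : ∀ n : ℕ, 1 ≤ n → ∀ i < k,
      iteratedDeriv i (fun t : ℝ => (𝓕 (f : EuclideanSpace ℝ (Fin d) → ℂ)) (t • e))
        (Real.sqrt (k * n)) = 0) :
    f = 0 := by
  have heven : ∀ x : EuclideanSpace ℝ (Fin d), f (-x) = f x := fun x => hf _ _ (norm_neg x)
  set F : 𝓢(EuclideanSpace ℝ (Fin d), ℂ) := 𝓕 f with hF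
  have hFf : (F : EuclideanSpace ℝ (Fin d) → ℂ) = 𝓕 (f : EuclideanSpace ℝ (Fin d) → ℂ) :=
    SchwartzMap.fourier_coe f
  have hFrad : ∀ x y : EuclideanSpace ℝ (Fin d), ‖x‖ = ‖y‖ → F x = F y := by
    intro x y hxy
    rw [hFf]
    exact Pool.Agent.H68.radial_fourier (f : EuclideanSpace ℝ (Fin d) → ℂ) hf x y hxy
  have hFF : 𝓕 (F : EuclideanSpace ℝ (Fin d) → ℂ) = (f : EuclideanSpace ℝ (Fin d) → ℂ) := by
    rw [hFf]
    ext x
    exact Pool.Agent.H68.fourier_fourier_even f heven x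
  have hFF2 : 𝓕 F = f := by
    ext x
    rw [SchwartzMap.fourier_coe, hFF]
  have key : ∀ η : ℂ, η ^ 2 = 1 → f + η • F = 0 := by
    intro η hη
    set g : 𝓢(EuclideanSpace ℝ (Fin d), ℂ) := f + η • F with hg
    have hga : ∀ x, g x = f x + η * F x := by
      intro x
      simp [hg]
    have hgF : ∀ x, 𝓕 (g : EuclideanSpace ℝ (Fin d) → ℂ) x = η * g x := by
      intro x
      have e1 : 𝓕 g = F + η • f := by
        rw [hg, FourierTransform.fourier_add, FourierTransform.fourier_smul, hFF2]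
      rw [← SchwartzMap.fourier_coe, e1, hga]
      simp only [SchwartzMap.add_apply, SchwartzMap.smul_apply, smul_eq_mul]
      linear_combination (-F x) * hη
    have hgz : ∀ n : ℕ, 1 ≤ n → ∀ i < k,
        iteratedDeriv i (fun t : ℝ => g (t • e)) (Real.sqrt (k * n)) = 0 := by
      intro n hn i hi
      have e1 : (fun t : ℝ => g (t • e)) =
          (fun t : ℝ => f (t • e)) + (fun t : ℝ => η * F (t • e)) := by
        funext t
        simp [hga]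
      have c1 := smooth_ray f e i (Real.sqrt (k * n))
      have c2 := smooth_ray F e i (Real.sqrt (k * n))
      have c3 : ContDiffAt ℝ i (fun t : ℝ => η * F (t • e)) (Real.sqrt (k * n)) :=
        contDiffAt_const.mul c2
      rw [e1, iteratedDeriv_add c1 c3, iteratedDeriv_const_mul η c2, hz n hn i hi]
      have := hz' n hn i hi
      rw [← hFf] at this
      rw [this]
      simp
    obtain ⟨M, U, hS, h0⟩ := sys_of_schwartz κ k hκ hk1 hk4 hd g (fun x y hxy => by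
      rw [hga, hga, hf x y hxy, hFrad x y hxy]) η hη hgF e he hgz
    exact h0 (hZ η M U hη hS)
  have k1 := key 1 (by norm_num)
  have k2 := key (-1) (by norm_num)
  ext x
  have a1 := congrArg (fun h : 𝓢(EuclideanSpace ℝ (Fin d), ℂ) => h x) k1
  have a2 := congrArg (fun h : 𝓢(EuclideanSpace ℝ (Fin d), ℂ) => h x) k2
  simp only [SchwartzMap.add_apply, SchwartzMap.smul_apply, smul_eq_mul, SchwartzMap.zero_apply]
    at a1 a2 ⊢
  linear_combination (1 / 2) * a1 + (1 / 2) * a2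

theorem uniq3 (κ : ℕ) (hκ : 10 ≤ κ) (hd : d = 2 * κ)
    (f : 𝓢(EuclideanSpace ℝ (Fin d), ℂ))
    (hf : ∀ x y : EuclideanSpace ℝ (Fin d), ‖x‖ = ‖y‖ → f x = f y)
    (e : EuclideanSpace ℝ (Fin d)) (he : ‖e‖ = 1)
    (hz : ∀ n : ℕ, 1 ≤ n → ∀ i < 3,
      iteratedDeriv i (fun t : ℝ => f (t • e)) (Real.sqrt ((3 : ℕ) * n)) = 0)
    (hz' : ∀ n : ℕ, 1 ≤ n → ∀ i < 3,
      iteratedDeriv i (fun t : ℝ => (𝓕 (f : EuclideanSpace ℝ (Fin d) → ℂ)) (t • e))
        (Real.sqrt ((3 : ℕ) * n)) = 0) :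
    f = 0 :=
  uniq_of_zero κ 3 (by omega) (by norm_num) (by norm_num) hd
    (fun _ _ _ hη h t => zero3 h hη hκ t) f hf e he hz hz'

theorem uniq4 (κ : ℕ) (hκ : 16 ≤ κ) (hev : Even κ) (hd : d = 2 * κ)
    (f : 𝓢(EuclideanSpace ℝ (Fin d), ℂ))
    (hf : ∀ x y : EuclideanSpace ℝ (Fin d), ‖x‖ = ‖y‖ → f x = f y)
    (e : EuclideanSpace ℝ (Fin d)) (he : ‖e‖ = 1)
    (hz : ∀ n : ℕ, 1 ≤ n → ∀ i < 4,
      iteratedDeriv i (fun t : ℝ => f (t • e)) (Real.sqrt ((4 : ℕ) * n)) = 0)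
    (hz' : ∀ n : ℕ, 1 ≤ n → ∀ i < 4,
      iteratedDeriv i (fun t : ℝ => (𝓕 (f : EuclideanSpace ℝ (Fin d) → ℂ)) (t • e))
        (Real.sqrt ((4 : ℕ) * n)) = 0) :
    f = 0 :=
  uniq_of_zero κ 4 (by omega) (by norm_num) (by norm_num) hd
    (fun _ _ _ hη h t => zero4 h hη hκ hev t) f hf e he hz hz'

end Pool.Agent.KT97
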